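import Mathlib

set_option autoImplicit false

namespace Pool.Agent.H847Z.Frob

open Filter

attribute [local instance] Ultrafilter.mul Ultrafilter.semigroup

/-- An idempotent ultrafilter below a left-invariant proper filter. -/
theorem exists_idem {M : Type*} [Semigroup M] (F : Filter M) [F.NeBot]
    (hF : ∀ s ∈ F, ∀ x : M, {y | x * y ∈ s} ∈ F) :
    ∃ U : Ultrafilter M, (U : Filter M) ≤ F ∧
      ∀ p : M → Prop, (∀ᶠ m in (U : Filter M), p m) ↔
        ∀ᶠ a in (U : Filter M), ∀ᶠ b in (U : Filter M), p (a * b) := by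
  let S : Set (Ultrafilter M) := ⋂ s ∈ F, {U : Ultrafilter M | s ∈ U}
  have hS : ∀ U : Ultrafilter M, U ∈ S ↔ (U : Filter M) ≤ F := by
    intro U
    simp only [S, Set.mem_iInter, Set.mem_ofPred_eq]
    exact ⟨fun h s hs => h s hs, fun h s hs => h hs⟩
  have h := exists_idempotent_in_compact_subsemigroup
    (M := Ultrafilter M) Ultrafilter.continuous_mul_left S ?_ ?_ ?_
  · obtain ⟨U, hU, hid⟩ := h
    refine ⟨U, (hS U).1 hU, fun p => ?_⟩
    rw [← Ultrafilter.eventually_mul, hid]
  · exact ⟨Ultrafilter.of F, (hS _).2 (Ultrafilter.of_le F)⟩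
  · exact IsClosed.isCompact
      (isClosed_iInter fun s => isClosed_iInter fun _ => ultrafilter_isClosed_basic s)
  · intro U _ V hV
    rw [hS] at hV ⊢
    intro s hs
    change ∀ᶠ m in ((U * V : Ultrafilter M) : Filter M), m ∈ s
    rw [Ultrafilter.eventually_mul]
    exact Eventually.of_forall fun x => hV (hF s hs x)

/-- The commutation lemma: an orbit of an abelian group acting by conjugation. -/
theorem comm_of_orbit {G A : Type*} [Group G] [CommGroup A] (ρ : A →* G) (m y z z' : G)
    (hy : ∃ v, ρ v * m * (ρ v)⁻¹ = y) (hz : ∃ v, ρ v * m * (ρ v)⁻¹ = z)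
    (hz' : ∃ v, ρ v * m * (ρ v)⁻¹ = z') (hyz : ∃ v, ρ v * m * (ρ v)⁻¹ = y * z)
    (hyz' : ∃ v, ρ v * m * (ρ v)⁻¹ = y * z') : z * z' = z' * z := by
  let φ : A →* MulAut G := MulAut.conj.comp ρ
  have hφ : ∀ v g, φ v g = ρ v * g * (ρ v)⁻¹ := fun v g => by simp [φ]
  have hc : ∀ u v g, φ u (φ v g) = φ v (φ u g) := fun u v g => by
    rw [← MulAut.mul_apply, ← map_mul, mul_comm, map_mul, MulAut.mul_apply]
  obtain ⟨v1, h1⟩ := hy
  obtain ⟨v2, h2⟩ := hz
  obtain ⟨v3, h3⟩ := hz'
  obtain ⟨v4, h4⟩ := hyz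
  obtain ⟨v5, h5⟩ := hyz'
  rw [← hφ] at h1 h2 h3 h4 h5
  have hm : m = φ v1⁻¹ y := by
    rw [← h1, ← MulAut.mul_apply, ← map_mul]; simp
  have key : ∀ v : A, ∀ w : A, φ w m = φ (w * v1⁻¹) y := fun _ w => by
    rw [map_mul, MulAut.mul_apply, ← hm]
  set a := v2 * v1⁻¹
  set c := v4 * v1⁻¹
  have ha : z = φ a y := by rw [← h2, key 1]
  have hcy : φ c y = y * φ a y := by rw [← ha, ← h4, key 1]
  have hall : ∀ d : A, φ c (φ d y) = φ d y * φ a (φ d y) := fun d => by
    rw [hc c d, hcy, map_mul, hc a d]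
  have e1 := hall (v3 * v1⁻¹)
  have e2 := hall (v5 * v1⁻¹)
  rw [← key 1, h3] at e1
  rw [← key 1, h5, map_mul (φ c), map_mul (φ a), hcy, e1, ← ha] at e2
  have : y * (z * z') * φ a z' = y * (z' * z) * φ a z' := by
    simpa only [mul_assoc] using e2
  exact mul_left_cancel (mul_right_cancel this)

/-- An injective equivariant self-map of a set with finitely many orbits is surjective. -/
theorem surj_of_inj {A X ι : Type*} [Finite ι] (act : A → X → X)
    (ty : X → ι) (hty : ∀ x y, ty x = ty y ↔ ∃ a, act a x = y)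
    (Ψ : X → X) (hinj : Function.Injective Ψ) (heq : ∀ a x, Ψ (act a x) = act a (Ψ x)) :
    Function.Surjective Ψ := by
  classical
  let R := Set.range ty
  let rep : R → X := fun t => Classical.choose t.2
  have hrep : ∀ t : R, ty (rep t) = t := fun t => Classical.choose_spec t.2
  let f : R → R := fun t => ⟨ty (Ψ (rep t)), ⟨_, rfl⟩⟩
  have hf : Function.Injective f := by
    intro s t hst
    have h1 : ty (Ψ (rep s)) = ty (Ψ (rep t)) := congrArg Subtype.val hst
    obtain ⟨a, ha⟩ := (hty _ _).1 h1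
    rw [← heq] at ha
    have h2 := (hty _ _).2 ⟨a, hinj ha⟩
    rw [hrep, hrep] at h2
    exact Subtype.ext h2
  have hs := Finite.surjective_of_injective hf
  intro y
  obtain ⟨t, ht⟩ := hs ⟨ty y, ⟨y, rfl⟩⟩
  have h1 : ty (Ψ (rep t)) = ty y := congrArg Subtype.val ht
  obtain ⟨a, ha⟩ := (hty _ _).1 h1
  exact ⟨act a (rep t), by rw [heq, ha]⟩

theorem jac_int : IsJacobsonRing ℤ := by
  rw [isJacobsonRing_iff_prime_eq]
  intro P hP
  by_cases h : P = ⊥
  · subst h
    refine le_antisymm (fun x hx => ?_) Ideal.le_jacobson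
    rw [Ideal.mem_jacobson_bot] at hx
    have h1 := Int.isUnit_iff.1 (hx x)
    rw [Ideal.mem_bot]
    rcases h1 with h1 | h1
    · have : x * x = 0 := by linarith
      exact mul_self_eq_zero.1 this
    · nlinarith [mul_self_nonneg x]
  · have := Ring.DimensionLEOne.maximalOfPrime h hP
    exact Ideal.jacobson_eq_self_of_isMaximal

/-- A field of finite type over the integers is finite. -/
theorem finite_field_of_finiteType (K : Type*) [Field K] [Algebra.FiniteType ℤ K] : Finite K := by
  have := jac_int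
  have hf : Module.Finite ℤ K := finite_of_finite_type_of_isJacobsonRing ℤ K
  obtain ⟨p, hp⟩ := CharP.exists K
  rcases CharP.char_is_prime_or_zero K p with hpp | h0
  · have := Fact.mk hpp
    let _ : Algebra (ZMod p) K := ZMod.algebra K p
    have : Module.Finite (ZMod p) K := Module.Finite.of_restrictScalars_finite ℤ (ZMod p) K
    exact Module.finite_of_finite (ZMod p)
  · subst h0
    have : CharZero K := CharP.charP_to_charZero K
    exfalso
    have hinj : Function.Injective (algebraMap ℤ K) := Int.cast_injective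
    have : IsField ℤ := isField_of_isIntegral_of_isField hinj (Field.toIsField K)
    exact Int.not_isField this

end Pool.Agent.H847Z.Frob
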