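import Mathlib
import Pool.Agent.H847Z.FrobA

set_option autoImplicit false

namespace Pool.Agent.H847Z.Frob

open Filter

/-- A Frobenius action whose point stabilisers are coherently identified with an abelian group. -/
structure Setup (G X A ι : Type*) [Group G] [MulAction G X] [CommGroup A] where
  r : X → A →* G
  fix : ∀ Q z, r Q z • Q = Q
  sur : ∀ Q (g : G), g • Q = Q → ∃ z, r Q z = g
  inj : ∀ Q, Function.Injective (r Q)
  conj : ∀ (g : G) Q z, g * r Q z * g⁻¹ = r (g • Q) z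
  frob : ∀ (g : G) (x y : X), x ≠ y → g • x = x → g • y = y → g = 1
  ty : X → X → ι
  ty_eq : ∀ P Q P' Q', ty P Q = ty P' Q' ↔ ∃ g : G, g • P = P' ∧ g • Q = Q'

/-- Simultaneous conjugacy of a point and a group element. -/
def Sim {G X : Type*} [Group G] [MulAction G X] (x : X) (g : G) (x' : X) (g' : G) : Prop :=
  ∃ f : G, f • x = x' ∧ f * g * f⁻¹ = g'

section
variable {G X : Type*} [Group G] [MulAction G X]

theorem Sim.refl (x : X) (g : G) : Sim x g x g := ⟨1, by simp, by simp⟩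

theorem Sim.symm {x x' : X} {g g' : G} (h : Sim x g x' g') : Sim x' g' x g := by
  obtain ⟨f, h1, h2⟩ := h
  exact ⟨f⁻¹, by rw [← h1]; simp, by rw [← h2]; group⟩

theorem Sim.trans {x x' x'' : X} {g g' g'' : G} (h : Sim x g x' g') (h' : Sim x' g' x'' g'') :
    Sim x g x'' g'' := by
  obtain ⟨f, h1, h2⟩ := h
  obtain ⟨f', h1', h2'⟩ := h'
  exact ⟨f' * f, by rw [mul_smul, h1, h1'], by rw [← h2', ← h2]; group⟩

theorem Sim.act (f : G) (x : X) (g : G) : Sim x g (f • x) (f * g * f⁻¹) := ⟨f, rfl, rfl⟩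

end

namespace Setup

variable {G X A ι : Type*} [Group G] [MulAction G X] [CommGroup A] (S : Setup G X A ι)

theorem sim_mul_left {x x' : X} {g g' : G} (h : Sim x g x' g') (u : A) :
    Sim x (S.r x u * g) x' (S.r x' u * g') := by
  obtain ⟨f, h1, h2⟩ := h
  refine ⟨f, h1, ?_⟩
  rw [← h1, ← S.conj, ← h2]; group

theorem sim_mul_right {x x' : X} {g g' : G} (h : Sim x g x' g') (u : A) :
    Sim x (g * S.r x u) x' (g' * S.r x' u) := by
  obtain ⟨f, h1, h2⟩ := h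
  refine ⟨f, h1, ?_⟩
  rw [← h1, ← S.conj, ← h2]; group

theorem eq_of_fix {Q Y : X} {z : A} (hz : z ≠ 1) (h : S.r Q z • Y = Y) : Y = Q := by
  by_contra hne
  have := S.frob _ Y Q hne h (S.fix Q z)
  exact hz (S.inj Q (by rw [this, map_one]))

theorem r_eq {P Q : X} {z w : A} (hz : z ≠ 1) (h : S.r P z = S.r Q w) : P = Q ∧ z = w := by
  have h1 : Q = P := S.eq_of_fix hz (by rw [h]; exact S.fix Q w)
  subst h1
  exact ⟨rfl, S.inj Q h⟩

theorem free {Q Y : X} (hY : Y ≠ Q) {z w : A} (h : S.r Q z • Y = S.r Q w • Y) : z = w := by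
  by_contra hne
  have h1 : (w⁻¹ * z) ≠ 1 := fun h' => hne (by rw [inv_mul_eq_one] at h'; exact h'.symm)
  apply hY
  apply S.eq_of_fix h1
  rw [map_mul, map_inv, mul_smul, h, inv_smul_smul]

theorem ty_base {B Y Y' : X} : S.ty B Y = S.ty B Y' ↔ ∃ v, S.r B v • Y = Y' := by
  rw [S.ty_eq]
  constructor
  · rintro ⟨g, h1, h2⟩
    obtain ⟨v, rfl⟩ := S.sur B g h1
    exact ⟨v, h2⟩
  · rintro ⟨v, h⟩
    exact ⟨_, S.fix B v, h⟩

theorem r_comm (Q : X) (u v : A) : S.r Q u * S.r Q v = S.r Q v * S.r Q u := by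
  rw [← map_mul, mul_comm, map_mul]

/-- The isosceles relation. -/
def Iso (Q P : X) (w z : A) : Prop :=
  Sim Q ((S.r Q w)⁻¹ * S.r P z) P ((S.r Q w)⁻¹ * S.r P z)

theorem Iso.act {Q P : X} {w z : A} (h : S.Iso Q P w z) (f : G) : S.Iso (f • Q) (f • P) w z := by
  unfold Iso at *
  have e : (S.r (f • Q) w)⁻¹ * S.r (f • P) z = f * ((S.r Q w)⁻¹ * S.r P z) * f⁻¹ := by
    rw [← S.conj, ← S.conj]; group
  rw [e]
  exact ((Sim.act f Q _).symm.trans h).trans (Sim.act f P _)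

theorem iso_of {B Q : X} {v w z : A} (h : S.r (S.r B v • Q) z • B = S.r Q w • B) :
    S.Iso Q (S.r B v • Q) w z := by
  have h1 : ((S.r Q w)⁻¹ * S.r (S.r B v • Q) z) • B = B := by
    rw [mul_smul, h, inv_smul_smul]
  obtain ⟨m, hm⟩ := S.sur B _ h1
  unfold Iso
  rw [← hm]
  exact ⟨S.r B v, rfl, by rw [S.r_comm]; group⟩

/-- The relation that is coloured. -/
def R (B Q : X) (Γ : ι) (w z : A) : Prop :=
  ∃ v : A, S.r (S.r B v • Q) z • B = S.r Q w • B ∧ S.ty Q (S.r B v • Q) = Γ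

theorem config {B Q : X} {Γ : ι} {w w' y : A} (hy : y ≠ 1)
    (h1 : S.R B Q Γ w (w * y)) (h2 : S.R B Q Γ w' (w * y)) (h3 : S.R B Q Γ w' y) :
    Sim B (S.r Q w * (S.r B w)⁻¹) B (S.r Q (w * y) * (S.r B (w * y))⁻¹) := by
  obtain ⟨v1, e1, t1⟩ := h1
  obtain ⟨v2, e2, t2⟩ := h2
  obtain ⟨v3, e3, t3⟩ := h3
  set P := S.r B v1 • Q with hP
  have i2 : S.Iso Q P w' (w * y) := by
    obtain ⟨f, f1, f2⟩ := (S.ty_eq _ _ _ _).1 (t2.trans t1.symm)
    have := (S.iso_of e2).act S f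
    rwa [f1, f2] at this
  have i3 : S.Iso Q P w' y := by
    obtain ⟨f, f1, f2⟩ := (S.ty_eq _ _ _ _).1 (t3.trans t1.symm)
    have := (S.iso_of e3).act S f
    rwa [f1, f2] at this
  unfold Iso at i2 i3
  have j3 := S.sim_mul_right i3 w
  have e : (S.r Q w')⁻¹ * S.r P y * S.r P w = (S.r Q w')⁻¹ * S.r P (w * y) := by
    rw [mul_assoc, ← map_mul, mul_comm y w]
  rw [e] at j3
  have j4 := S.sim_mul_left (i2.trans j3.symm) (w' * w⁻¹)
  have hfix : ((S.r Q w)⁻¹ * S.r P (w * y)) • B = B := by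
    rw [mul_smul, e1, inv_smul_smul]
  obtain ⟨m, hm⟩ := S.sur B _ hfix
  have ea : S.r Q (w' * w⁻¹) * ((S.r Q w')⁻¹ * S.r P (w * y)) = S.r B m := by
    rw [hm, mul_comm w', map_mul, map_inv]; group
  have eb : S.r Q (w' * w⁻¹) * ((S.r Q w')⁻¹ * S.r P y * S.r Q w)
      = S.r ((S.r Q w)⁻¹ • P) y := by
    rw [← S.conj (S.r Q w)⁻¹ P y, mul_comm w', map_mul, map_inv]; group
  rw [ea, eb] at j4
  obtain ⟨f, -, hf⟩ := j4
  rw [S.conj] at hf
  have hmy : y = m := (S.r_eq hy hf.symm).2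
  subst hmy
  have e5 : S.r Q w * (S.r B w)⁻¹ = S.r P (w * y) * (S.r B (w * y))⁻¹ := by
    have : S.r P (w * y) = S.r Q w * S.r B y := by rw [hm]; group
    rw [this, map_mul]; group
  rw [e5, hP, ← S.conj]
  refine Sim.symm ⟨S.r B v1, S.fix B v1, ?_⟩
  have hc := S.r_comm B (w * y)⁻¹ v1⁻¹
  rw [map_inv, map_inv] at hc
  simp only [mul_assoc, hc]

theorem eventually_sim [Finite ι] (e : Ultrafilter A) (hc : (e : Filter A) ≤ cofinite)
    (he : ∀ p : A → Prop, (∀ᶠ m in (e : Filter A), p m) ↔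
      ∀ᶠ a in (e : Filter A), ∀ᶠ b in (e : Filter A), p (a * b)) (B Q : X) :
    ∃ m : G, ∀ᶠ w in (e : Filter A), Sim B m B (S.r Q w * (S.r B w)⁻¹) := by
  -- the colour of single elements
  have h0 : ∃ k, ∀ᶠ w in (e : Filter A), S.ty B (S.r Q w • B) = k :=
    Ultrafilter.eventually_exists_iff.1 (Eventually.of_forall fun w => ⟨_, rfl⟩)
  obtain ⟨k, hk⟩ := h0
  have hk3 : ∀ᶠ a in (e : Filter A), ∀ᶠ b in (e : Filter A), ∀ᶠ c in (e : Filter A),
      S.ty B (S.r Q (a * b * c) • B) = k := by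
    have := (he _).1 hk
    exact (he (fun a => ∀ᶠ c in (e : Filter A), S.ty B (S.r Q (a * c) • B) = k)).1 this
  have h1 : ∀ᶠ a in (e : Filter A), ∀ᶠ b in (e : Filter A), ∀ᶠ c in (e : Filter A),
      ∃ Γ, S.R B Q Γ b (a * b * c) := by
    filter_upwards [hk3] with a ha
    filter_upwards [ha, hk] with b hb hb'
    filter_upwards [hb] with c hc'
    obtain ⟨v, hv⟩ := S.ty_base.1 (hc'.trans hb'.symm)
    refine ⟨_, v, ?_, rfl⟩
    rw [← S.conj, mul_smul, mul_smul, ← map_inv, S.fix, hv]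
  have h2 : ∃ Γ, ∀ᶠ a in (e : Filter A), ∀ᶠ b in (e : Filter A), ∀ᶠ c in (e : Filter A),
      S.R B Q Γ b (a * b * c) := by
    apply Ultrafilter.eventually_exists_iff.1
    filter_upwards [h1] with a ha
    apply Ultrafilter.eventually_exists_iff.1
    filter_upwards [ha] with b hb
    exact Ultrafilter.eventually_exists_iff.1 hb
  obtain ⟨Γ, hΓ⟩ := h2
  have hne : ∀ a : A, ∀ᶠ c in (e : Filter A), a * c ≠ 1 := fun a => by
    apply hc
    have : {c : A | a * c ≠ 1} = {a⁻¹}ᶜ := by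
      ext c; simp [mul_eq_one_iff_inv_eq, eq_comm]
    change {c : A | a * c ≠ 1} ∈ cofinite
    rw [this]
    exact (Set.finite_singleton _).compl_mem_cofinite
  -- four variables
  have g1 := (he (fun a => ∀ᶠ b in (e : Filter A), ∀ᶠ c in (e : Filter A),
      S.R B Q Γ b (a * b * c))).1 hΓ
  have h4 : ∀ᶠ x1 in (e : Filter A), ∀ᶠ x2 in (e : Filter A), ∀ᶠ x3 in (e : Filter A),
      ∀ᶠ x4 in (e : Filter A), Sim B (S.r Q x3 * (S.r B x3)⁻¹) B
        (S.r Q (x1 * x2 * x3 * x4) * (S.r B (x1 * x2 * x3 * x4))⁻¹) := by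
    filter_upwards [g1, hΓ] with x1 a1 a2
    filter_upwards [a1, a2] with x2 b1 b2
    have b3 := (he _).1 b2
    filter_upwards [b1, b3] with x3 c1 c3
    filter_upwards [c1, c3, b2, hne (x1 * x2)] with x4 d1 d3 d2 d4
    have e1 : x1 * x2 * x3 * x4 = x3 * (x1 * x2 * x4) := by
      simp only [mul_comm, mul_left_comm]
    have e2 : x1 * x2 * (x3 * x4) = x3 * (x1 * x2 * x4) := by
      simp only [mul_comm, mul_left_comm]
    rw [e1] at d1 ⊢
    rw [e2] at d3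
    exact S.config d4 d1 d3 d2
  have h5 : ∀ᶠ x1 in (e : Filter A), ∀ᶠ x2 in (e : Filter A), ∀ᶠ x3 in (e : Filter A),
      ∀ᶠ x4 in (e : Filter A), Sim B (S.r Q x3 * (S.r B x3)⁻¹) B (S.r Q x4 * (S.r B x4)⁻¹) := by
    filter_upwards [h4] with x1 a1
    have a2 := (he (fun x2 => ∀ᶠ x3 in (e : Filter A),
      ∀ᶠ x4 in (e : Filter A), Sim B (S.r Q x3 * (S.r B x3)⁻¹) B
        (S.r Q (x1 * x2 * x3 * x4) * (S.r B (x1 * x2 * x3 * x4))⁻¹))).1 a1
    filter_upwards [a1, a2] with x2 b1 b2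
    filter_upwards [b1, b2] with x3 c1 c2
    have c3 := (he _).1 c1
    filter_upwards [c3, c2] with x4 d1 d2
    obtain ⟨x5, f1, f2⟩ := (d1.and d2).exists
    have e1 : x1 * x2 * x3 * (x4 * x5) = x1 * (x2 * x3) * x4 * x5 := by
      simp only [mul_assoc]
    rw [e1] at f1
    exact f1.trans f2.symm
  obtain ⟨x1, a1⟩ := h5.exists
  obtain ⟨x2, a2⟩ := a1.exists
  obtain ⟨x3, a3⟩ := a2.exists
  exact ⟨_, a3⟩

theorem exists_good [Finite ι] (e : Ultrafilter A) (hc : (e : Filter A) ≤ cofinite)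
    (he : ∀ p : A → Prop, (∀ᶠ m in (e : Filter A), p m) ↔
      ∀ᶠ a in (e : Filter A), ∀ᶠ b in (e : Filter A), p (a * b)) :
    ∃ W ∈ e, ∀ w ∈ W, ∀ w' ∈ W, ∀ B Q : X,
      Sim B (S.r Q w * (S.r B w)⁻¹) B (S.r Q w' * (S.r B w')⁻¹) := by
  classical
  have h1 : ∀ t : ι, ∃ W ∈ e, ∀ w ∈ W, ∀ w' ∈ W, ∀ B Q : X, S.ty B Q = t →
      Sim B (S.r Q w * (S.r B w)⁻¹) B (S.r Q w' * (S.r B w')⁻¹) := by
    intro t
    by_cases ht : ∃ B Q, S.ty B Q = t
    · obtain ⟨B0, Q0, h0⟩ := ht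
      obtain ⟨m, hm⟩ := S.eventually_sim e hc he B0 Q0
      refine ⟨_, hm, fun w hw w' hw' B Q hBQ => ?_⟩
      obtain ⟨f, rfl, rfl⟩ := (S.ty_eq _ _ _ _).1 (h0.trans hBQ.symm)
      have ee : ∀ u, S.r (f • Q0) u * (S.r (f • B0) u)⁻¹ = f * (S.r Q0 u * (S.r B0 u)⁻¹) * f⁻¹ := by
        intro u; rw [← S.conj, ← S.conj]; group
      rw [ee, ee]
      exact ((Sim.act f B0 _).symm.trans (Sim.trans (Sim.symm hw) hw')).trans (Sim.act f B0 _)
    · exact ⟨Set.univ, univ_mem, fun _ _ _ _ B Q h => absurd ⟨B, Q, h⟩ ht⟩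
  choose W hW hW' using h1
  refine ⟨⋂ t, W t, (iInter_mem (f := (e : Filter A))).2 hW, fun w hw w' hw' B Q => ?_⟩
  exact hW' _ w (Set.mem_iInter.1 hw _) w' (Set.mem_iInter.1 hw' _) B Q rfl

end Setup

end Pool.Agent.H847Z.Frob
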