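import Mathlib
import Pool.Agent.H847Z.FrobB

set_option autoImplicit false

namespace Pool.Agent.H847Z.Frob

open Filter

theorem surj_on {A X ι : Type*} [Group A] [Finite ι] (p : X → Prop) (act : A → X → X)
    (hone : ∀ x, act 1 x = x) (hmul : ∀ a b x, act (a * b) x = act a (act b x))
    (hp : ∀ a x, p x → p (act a x))
    (ty : X → ι) (hty : ∀ x y, ty x = ty y → ∃ a, act a x = y)
    (Ψ : X → X) (hΨ : ∀ x, p x → p (Ψ x)) (hinj : ∀ x y, p x → p y → Ψ x = Ψ y → x = y)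
    (heq : ∀ a x, p x → Ψ (act a x) = act a (Ψ x)) (y : X) (hy : p y) : ∃ x, p x ∧ Ψ x = y := by
  have := surj_of_inj (X := {x // p x}) (ι := Set ι) (fun a x => ⟨act a x, hp a x x.2⟩)
    (fun x => {t | ∃ a, ty (act a x) = t}) (fun x y => ?_) (fun x => ⟨Ψ x, hΨ x x.2⟩)
    (fun x y h => Subtype.ext (hinj x y x.2 y.2 (congrArg Subtype.val h)))
    (fun a x => Subtype.ext (heq a x x.2))
  · obtain ⟨x, hx⟩ := this ⟨y, hy⟩
    exact ⟨x, x.2, congrArg Subtype.val hx⟩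
  constructor
  · intro h
    have h1 : ty y ∈ {t | ∃ a, ty (act a (y : X)) = t} := ⟨1, by rw [hone]⟩
    rw [← h] at h1
    obtain ⟨a, ha⟩ := h1
    obtain ⟨b, hb⟩ := hty _ _ ha
    exact ⟨b * a, Subtype.ext (by simp only [hmul, hb])⟩
  · rintro ⟨a, rfl⟩
    ext t
    constructor
    · rintro ⟨b, rfl⟩
      exact ⟨b * a⁻¹, by simp only [← hmul, inv_mul_cancel_right]⟩
    · rintro ⟨b, rfl⟩
      exact ⟨b * a, by simp only [hmul]⟩

/-- A conjugacy class of embeddings of an abelian group, almost Frobenius. -/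
structure Setup2 (G X A ι : Type*) [Group G] [MulAction G X] [CommGroup A] where
  r : X → A →* G
  fix : ∀ Q z, r Q z • Q = Q
  inj : ∀ Q, Function.Injective (r Q)
  conj : ∀ (g : G) Q z, g * r Q z * g⁻¹ = r (g • Q) z
  ext : ∀ P Q, (∀ z, r P z = r Q z) → P = Q
  req : ∀ P Q z w, z ≠ 1 → r P z = r Q w → P = Q ∨ ∀ u, r P u = r Q u⁻¹
  frob : ∀ (g : G) P Q, g • P = P → g • Q = Q → P ≠ Q → ¬ (∀ u, r P u = r Q u⁻¹) → g = 1
  sq : ∀ z w : A, z * z = w * w → z = w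
  trans : ∀ P Q : X, ∃ g : G, g • P = Q
  dty : X → G → ι
  dty_eq : ∀ B g g', dty B g = dty B g' → ∃ u v, g' = r B u * g * r B v

namespace Setup2

variable {G X A ι : Type*} [Group G] [MulAction G X] [CommGroup A] (S : Setup2 G X A ι)

def Opp (P Q : X) : Prop := ∀ u, S.r P u = S.r Q u⁻¹

def Cj (B : X) (g g' : G) : Prop := ∃ v, S.r B v * g * (S.r B v)⁻¹ = g'

theorem r_comm (Q : X) (u v : A) : S.r Q u * S.r Q v = S.r Q v * S.r Q u := by
  rw [← map_mul, mul_comm, map_mul]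

theorem comm_of_fix {g : G} {Q : X} (h : g • Q = Q) (u : A) : g * S.r Q u = S.r Q u * g := by
  have := S.conj g Q u
  rw [h] at this
  exact mul_inv_eq_iff_eq_mul.1 this

variable {S}

theorem Cj.refl (B : X) (g : G) : S.Cj B g g := ⟨1, by simp⟩

theorem Cj.symm {B : X} {g g' : G} (h : S.Cj B g g') : S.Cj B g' g := by
  obtain ⟨v, rfl⟩ := h
  exact ⟨v⁻¹, by rw [map_inv]; group⟩

theorem Cj.trans {B : X} {g g' g'' : G} (h : S.Cj B g g') (h' : S.Cj B g' g'') : S.Cj B g g'' := by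
  obtain ⟨v, rfl⟩ := h
  obtain ⟨v', rfl⟩ := h'
  exact ⟨v' * v, by rw [map_mul]; group⟩

theorem Cj.act {B : X} {g g' : G} (h : S.Cj B g g') (f : G) :
    S.Cj (f • B) (f * g * f⁻¹) (f * g' * f⁻¹) := by
  obtain ⟨v, rfl⟩ := h
  exact ⟨v, by rw [← S.conj]; group⟩

theorem Cj.mul_left {B : X} {g g' : G} (h : S.Cj B g g') (u : A) :
    S.Cj B (S.r B u * g) (S.r B u * g') := by
  obtain ⟨v, rfl⟩ := h
  exact ⟨v, by rw [← mul_assoc, S.r_comm]; group⟩

theorem Cj.inv {B : X} {g g' : G} (h : S.Cj B g g') : S.Cj B g⁻¹ g'⁻¹ := by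
  obtain ⟨v, rfl⟩ := h
  exact ⟨v, by group⟩

theorem Cj.swap (B : X) (g : G) (u : A) : S.Cj B (g * S.r B u) (S.r B u * g) :=
  ⟨u, by group⟩

theorem Opp.symm {P Q : X} (h : S.Opp P Q) : S.Opp Q P := fun u => by
  rw [h, inv_inv]

theorem Opp.act {P Q : X} (h : S.Opp P Q) (f : G) : S.Opp (f • P) (f • Q) := fun u => by
  rw [← S.conj, ← S.conj, h]

theorem Opp.uniq {P Q R : X} (h : S.Opp P Q) (h' : S.Opp P R) : Q = R :=
  S.ext _ _ fun z => by rw [h.symm z, h'.symm z]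

variable (S)

include S in
theorem ne_inv {z : A} (hz : z ≠ 1) : z ≠ z⁻¹ := fun h => hz (S.sq z 1 (by
  nth_rewrite 2 [h]
  simp))

theorem r_eq {P Q : X} {z w : A} (hz : z ≠ 1) (h : S.r P z = S.r Q w) :
    (P = Q ∧ z = w) ∨ (S.Opp P Q ∧ z = w⁻¹) := by
  rcases S.req P Q z w hz h with rfl | h1
  · exact Or.inl ⟨rfl, S.inj P h⟩
  · refine Or.inr ⟨h1, ?_⟩
    rw [h1 z] at h
    rw [← S.inj Q h, inv_inv]

theorem r_eq' {P Q : X} {z : A} (hz : z ≠ 1) (h : S.r P z = S.r Q z) : P = Q := by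
  rcases S.r_eq hz h with h1 | h1
  · exact h1.1
  · exact absurd h1.2 (S.ne_inv hz)

theorem fix_cases {g : G} (hg : g ≠ 1) {P Q : X} (hP : g • P = P) (hQ : g • Q = Q) :
    Q = P ∨ S.Opp Q P := by
  by_contra h
  push Not at h
  exact hg (S.frob g Q P hQ hP h.1 h.2)

theorem ne_of {P Q : X} (h1 : P ≠ Q) (h2 : ¬ S.Opp P Q) {w : A} (hw : w ≠ 1) :
    S.r P w • Q ≠ Q ∧ ¬ S.Opp (S.r P w • Q) Q := by
  constructor
  · intro h
    exact hw (S.inj P (by rw [S.frob _ P Q (S.fix P w) h h1 h2, map_one]))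
  · intro h
    have h3 : S.r P (w * w) • Q = Q := by
      rw [map_mul, mul_smul]
      exact (h.act (S.r P w)).symm.uniq h
    have := S.inj P (by rw [S.frob _ P Q (S.fix P _) h3 h1 h2, map_one] : S.r P (w * w) = S.r P 1)
    exact hw (S.sq w 1 (by rw [this, one_mul]))

theorem uniq_pos {Q : X} {g : G} (h1 : g • Q ≠ Q) (h2 : ¬ S.Opp (g • Q) Q) {u u' : A}
    (h : S.Cj Q (S.r Q u * g) (S.r Q u' * g)) : u = u' := by
  obtain ⟨v, hv⟩ := h
  have e : S.r (g • Q) v = S.r Q (u'⁻¹ * v * u) := by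
    rw [← S.conj, map_mul, map_mul, map_inv]
    have : S.r Q v * S.r Q u * g = S.r Q u' * g * S.r Q v := by rw [← hv]; group
    calc g * S.r Q v * g⁻¹ = (S.r Q u')⁻¹ * (S.r Q u' * g * S.r Q v) * g⁻¹ := by group
      _ = _ := by rw [← this]; group
  by_cases hv1 : v = 1
  · rw [hv1, map_one, mul_one, eq_comm, ← map_one (S.r Q)] at e
    have := S.inj Q e
    rw [inv_mul_eq_one] at this
    exact this.symm
  · rcases S.r_eq hv1 e with h3 | h3
    · exact absurd h3.1 h1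
    · exact absurd h3.1 h2

theorem exists_col {g : G} {x : X} (hg : g • x = x) (Q : X) :
    ∃ col : G → ι, ∀ f f', col f = col f' → S.Cj Q (f * g * f⁻¹) (f' * g * f'⁻¹) := by
  obtain ⟨t, ht⟩ := S.trans x Q
  refine ⟨fun f => S.dty Q (f * t⁻¹), fun f f' h => ?_⟩
  obtain ⟨u, v, huv⟩ := S.dty_eq _ _ _ h
  have e : f' = S.r Q u * f * S.r x v := by
    have : f' = S.r Q u * (f * t⁻¹) * S.r Q v * t := by rw [← huv]; group
    rw [this, ← ht, ← S.conj t x v]; group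
  refine ⟨u, ?_⟩
  have hc := S.comm_of_fix hg v
  rw [e]
  calc S.r Q u * (f * g * f⁻¹) * (S.r Q u)⁻¹
      = S.r Q u * f * ((g * S.r x v) * (S.r x v)⁻¹) * f⁻¹ * (S.r Q u)⁻¹ := by group
    _ = _ := by rw [hc]; group

theorem exists_oty (B : X) :
    ∃ oty : X → ι, ∀ Y Y', oty Y = oty Y' → ∃ v, S.r B v • Y = Y' := by
  choose t ht using S.trans B
  refine ⟨fun Y => S.dty B (t Y), fun Y Y' h => ?_⟩
  obtain ⟨u, v, huv⟩ := S.dty_eq _ _ _ h
  exact ⟨u, by rw [← ht Y', huv, mul_smul, mul_smul, S.fix, ht]⟩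

include S in
theorem exists_pty (B : X) :
    ∃ pty : X → X → ι, ∀ P Q P' Q', pty P Q = pty P' Q' → ∃ g : G, g • P = P' ∧ g • Q = Q' := by
  choose t ht using S.trans B
  obtain ⟨oty, ho⟩ := S.exists_oty B
  refine ⟨fun P Q => oty ((t P)⁻¹ • Q), fun P Q P' Q' h => ?_⟩
  obtain ⟨v, hv⟩ := ho _ _ h
  refine ⟨t P' * S.r B v * (t P)⁻¹, ?_, ?_⟩
  · rw [mul_smul, mul_smul, (inv_smul_eq_iff.2 (ht P).symm : (t P)⁻¹ • P = B), S.fix, ht]
  · rw [mul_smul, mul_smul, hv, smul_inv_smul]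

theorem sim_mul_left {x x' : X} {g g' : G} (h : Sim x g x' g') (u : A) :
    Sim x (S.r x u * g) x' (S.r x' u * g') := by
  obtain ⟨f, h1, h2⟩ := h
  refine ⟨f, h1, ?_⟩
  rw [← h1, ← S.conj, ← h2]; group

theorem sim_mul_right {x x' : X} {g g' : G} (h : Sim x g x' g') (u : A) :
    Sim x (g * S.r x u) x' (g' * S.r x' u) := by
  obtain ⟨f, h1, h2⟩ := h
  refine ⟨f, h1, ?_⟩
  rw [← h1, ← S.conj, ← h2]; group

def Iso (Q P : X) (w z : A) : Prop :=
  Sim Q ((S.r Q w)⁻¹ * S.r P z) P ((S.r Q w)⁻¹ * S.r P z)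

theorem Iso.act {Q P : X} {w z : A} (h : S.Iso Q P w z) (f : G) : S.Iso (f • Q) (f • P) w z := by
  unfold Iso at *
  have e : (S.r (f • Q) w)⁻¹ * S.r (f • P) z = f * ((S.r Q w)⁻¹ * S.r P z) * f⁻¹ := by
    rw [← S.conj, ← S.conj]; group
  rw [e]
  exact ((Sim.act f Q _).symm.trans h).trans (Sim.act f P _)

theorem iso_of {B Q : X} {v w z m : A} (h : S.r (S.r B v • Q) z = S.r Q w * S.r B m) :
    S.Iso Q (S.r B v • Q) w z := by
  unfold Iso
  rw [h, inv_mul_cancel_left]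
  exact ⟨S.r B v, rfl, by rw [S.r_comm]; group⟩

def R (pty : X → X → ι) (B Q : X) (Γ : ι) (w z : A) : Prop :=
  ∃ v m : A, S.r (S.r B v • Q) z = S.r Q w * S.r B m ∧ pty Q (S.r B v • Q) = Γ

/-- signed displacement -/
def th (s : Bool) (B Q : X) (w : A) : G := S.r Q w * S.r B (if s then w⁻¹ else w)

def HasOpp : Prop := ∃ P Q, S.Opp P Q

theorem config {pty : X → X → ι}
    (hp : ∀ P Q P' Q', pty P Q = pty P' Q' → ∃ g : G, g • P = P' ∧ g • Q = Q')
    {B Q : X} {Γ : ι} {w w' y : A} (hy : y ≠ 1)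
    (h1 : S.R pty B Q Γ w (w * y)) (h2 : S.R pty B Q Γ w' (w * y)) (h3 : S.R pty B Q Γ w' y) :
    ∃ s : Bool, (s = false → S.HasOpp) ∧ S.Cj B (S.th s B Q w) (S.th s B Q (w * y)) := by
  obtain ⟨v1, m, e1, t1⟩ := h1
  obtain ⟨v2, m2, e2, t2⟩ := h2
  obtain ⟨v3, m3, e3, t3⟩ := h3
  set P := S.r B v1 • Q with hP
  have i2 : S.Iso Q P w' (w * y) := by
    obtain ⟨f, f1, f2⟩ := hp _ _ _ _ (t2.trans t1.symm)
    have := (S.iso_of e2).act S f
    rwa [f1, f2] at this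
  have i3 : S.Iso Q P w' y := by
    obtain ⟨f, f1, f2⟩ := hp _ _ _ _ (t3.trans t1.symm)
    have := (S.iso_of e3).act S f
    rwa [f1, f2] at this
  unfold Iso at i2 i3
  have j3 := S.sim_mul_right i3 w
  have e : (S.r Q w')⁻¹ * S.r P y * S.r P w = (S.r Q w')⁻¹ * S.r P (w * y) := by
    rw [mul_assoc, ← map_mul, mul_comm y w]
  rw [e] at j3
  have j4 := S.sim_mul_left (i2.trans j3.symm) (w' * w⁻¹)
  have ea : S.r Q (w' * w⁻¹) * ((S.r Q w')⁻¹ * S.r P (w * y)) = S.r B m := by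
    rw [e1, mul_comm w', map_mul, map_inv]; group
  have eb : S.r Q (w' * w⁻¹) * ((S.r Q w')⁻¹ * S.r P y * S.r Q w)
      = S.r ((S.r Q w)⁻¹ • P) y := by
    rw [← S.conj (S.r Q w)⁻¹ P y, mul_comm w', map_mul, map_inv]; group
  rw [ea, eb] at j4
  obtain ⟨f, -, hf⟩ := j4
  rw [S.conj] at hf
  have key : ∀ u : A, S.Cj B (S.r P (w * y) * S.r B u) (S.r Q (w * y) * S.r B u) := fun u => by
    refine Cj.symm ⟨v1, ?_⟩
    rw [hP, ← S.conj]
    have hc := S.r_comm B u v1⁻¹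
    rw [map_inv] at hc
    simp only [mul_assoc, hc]
  rcases S.r_eq hy hf.symm with ⟨-, rfl⟩ | ⟨ho, hm⟩
  · refine ⟨true, by simp, ?_⟩
    have := key (w * y)⁻¹
    rw [e1, mul_assoc, ← map_mul] at this
    simpa [th, mul_comm w y] using this
  · refine ⟨false, fun _ => ⟨_, _, ho⟩, ?_⟩
    have := key (w * y)
    rw [e1, mul_assoc, ← map_mul] at this
    have e7 : m * (w * y) = w := by rw [hm, mul_comm w, mul_inv_cancel_left]
    rw [e7] at this
    simpa [th] using this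

theorem eventually_cj [Finite ι] (e : Ultrafilter A) (hc : (e : Filter A) ≤ cofinite)
    (he : ∀ p : A → Prop, (∀ᶠ m in (e : Filter A), p m) ↔
      ∀ᶠ a in (e : Filter A), ∀ᶠ b in (e : Filter A), p (a * b)) (B Q : X) :
    ∃ s : Bool, (s = false → S.HasOpp) ∧
      ∃ m : G, ∀ᶠ w in (e : Filter A), S.Cj B m (S.th s B Q w) := by
  obtain ⟨pty, hp⟩ := S.exists_pty B
  have h0 : ∃ k, ∀ᶠ w in (e : Filter A), S.dty B (S.r Q w) = k :=
    Ultrafilter.eventually_exists_iff.1 (Eventually.of_forall fun w => ⟨_, rfl⟩)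
  obtain ⟨k, hk⟩ := h0
  have hk3 : ∀ᶠ a in (e : Filter A), ∀ᶠ b in (e : Filter A), ∀ᶠ c in (e : Filter A),
      S.dty B (S.r Q (a * b * c)) = k := by
    have := (he _).1 hk
    exact (he (fun a => ∀ᶠ c in (e : Filter A), S.dty B (S.r Q (a * c)) = k)).1 this
  have h1 : ∀ᶠ a in (e : Filter A), ∀ᶠ b in (e : Filter A), ∀ᶠ c in (e : Filter A),
      ∃ Γ, S.R pty B Q Γ b (a * b * c) := by
    filter_upwards [hk3] with a ha
    filter_upwards [ha, hk] with b hb hb'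
    filter_upwards [hb] with c hc'
    obtain ⟨u, v, huv⟩ := S.dty_eq _ _ _ (hc'.trans hb'.symm)
    refine ⟨_, u, (u * v)⁻¹, ?_, rfl⟩
    rw [← S.conj, huv, map_inv, map_mul (S.r B)]; group
  have h2 : ∃ Γ, ∀ᶠ a in (e : Filter A), ∀ᶠ b in (e : Filter A), ∀ᶠ c in (e : Filter A),
      S.R pty B Q Γ b (a * b * c) := by
    apply Ultrafilter.eventually_exists_iff.1
    filter_upwards [h1] with a ha
    apply Ultrafilter.eventually_exists_iff.1
    filter_upwards [ha] with b hb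
    exact Ultrafilter.eventually_exists_iff.1 hb
  obtain ⟨Γ, hΓ⟩ := h2
  have hne : ∀ a : A, ∀ᶠ c in (e : Filter A), a * c ≠ 1 := fun a => by
    apply hc
    have : {c : A | a * c ≠ 1} = {a⁻¹}ᶜ := by
      ext c; simp [mul_eq_one_iff_inv_eq, eq_comm]
    change {c : A | a * c ≠ 1} ∈ cofinite
    rw [this]
    exact (Set.finite_singleton _).compl_mem_cofinite
  have g1 := (he (fun a => ∀ᶠ b in (e : Filter A), ∀ᶠ c in (e : Filter A),
      S.R pty B Q Γ b (a * b * c))).1 hΓ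
  have h4' : ∀ᶠ x1 in (e : Filter A), ∀ᶠ x2 in (e : Filter A), ∀ᶠ x3 in (e : Filter A),
      ∀ᶠ x4 in (e : Filter A), ∃ s : Bool, (s = false → S.HasOpp) ∧
        S.Cj B (S.th s B Q x3) (S.th s B Q (x1 * x2 * x3 * x4)) := by
    filter_upwards [g1, hΓ] with x1 a1 a2
    filter_upwards [a1, a2] with x2 b1 b2
    have b3 := (he _).1 b2
    filter_upwards [b1, b3] with x3 c1 c3
    filter_upwards [c1, c3, b2, hne (x1 * x2)] with x4 d1 d3 d2 d4
    have e1 : x1 * x2 * x3 * x4 = x3 * (x1 * x2 * x4) := by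
      simp only [mul_comm, mul_left_comm]
    have e2 : x1 * x2 * (x3 * x4) = x3 * (x1 * x2 * x4) := by
      simp only [mul_comm, mul_left_comm]
    rw [e1] at d1 ⊢
    rw [e2] at d3
    exact S.config hp d4 d1 d3 d2
  have h4'' : ∃ s : Bool, ∀ᶠ x1 in (e : Filter A), ∀ᶠ x2 in (e : Filter A),
      ∀ᶠ x3 in (e : Filter A), ∀ᶠ x4 in (e : Filter A), (s = false → S.HasOpp) ∧
        S.Cj B (S.th s B Q x3) (S.th s B Q (x1 * x2 * x3 * x4)) := by
    apply Ultrafilter.eventually_exists_iff.1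
    filter_upwards [h4'] with a ha
    apply Ultrafilter.eventually_exists_iff.1
    filter_upwards [ha] with b hb
    apply Ultrafilter.eventually_exists_iff.1
    filter_upwards [hb] with c hc'
    exact Ultrafilter.eventually_exists_iff.1 hc'
  obtain ⟨s, h4⟩ := h4''
  have hs : s = false → S.HasOpp := by
    obtain ⟨x1, a1⟩ := h4.exists
    obtain ⟨x2, a2⟩ := a1.exists
    obtain ⟨x3, a3⟩ := a2.exists
    obtain ⟨x4, a4⟩ := a3.exists
    exact a4.1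
  refine ⟨s, hs, ?_⟩
  have h5 : ∀ᶠ x1 in (e : Filter A), ∀ᶠ x2 in (e : Filter A), ∀ᶠ x3 in (e : Filter A),
      ∀ᶠ x4 in (e : Filter A), S.Cj B (S.th s B Q x3) (S.th s B Q x4) := by
    filter_upwards [h4] with x1 a1
    have a2 := (he (fun x2 => ∀ᶠ x3 in (e : Filter A),
      ∀ᶠ x4 in (e : Filter A), (s = false → S.HasOpp) ∧
        S.Cj B (S.th s B Q x3) (S.th s B Q (x1 * x2 * x3 * x4)))).1 a1
    filter_upwards [a1, a2] with x2 b1 b2
    filter_upwards [b1, b2] with x3 c1 c2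
    have c3 := (he _).1 c1
    filter_upwards [c3, c2] with x4 d1 d2
    obtain ⟨x5, f1, f2⟩ := (d1.and d2).exists
    have e1 : x1 * x2 * x3 * (x4 * x5) = x1 * (x2 * x3) * x4 * x5 := by
      simp only [mul_assoc]
    rw [e1] at f1
    exact f1.2.trans f2.2.symm
  obtain ⟨x1, a1⟩ := h5.exists
  obtain ⟨x2, a2⟩ := a1.exists
  obtain ⟨x3, a3⟩ := a2.exists
  exact ⟨_, a3⟩

def Pos (W : Set A) (B Q : X) : Prop :=
  ∀ w ∈ W, ∀ w' ∈ W, S.Cj B (S.r Q w * (S.r B w)⁻¹) (S.r Q w' * (S.r B w')⁻¹)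

def Neg (W : Set A) (B Q : X) : Prop :=
  ∀ w ∈ W, ∀ w' ∈ W, S.Cj B (S.r Q w * S.r B w) (S.r Q w' * S.r B w')

theorem Pos.act {W : Set A} {B Q : X} (h : S.Pos W B Q) (f : G) : S.Pos W (f • B) (f • Q) := by
  intro w hw w' hw'
  have ee : ∀ u, S.r (f • Q) u * (S.r (f • B) u)⁻¹ = f * (S.r Q u * (S.r B u)⁻¹) * f⁻¹ := by
    intro u; rw [← S.conj, ← S.conj]; group
  rw [ee, ee]
  exact (h w hw w' hw').act f

theorem Neg.act {W : Set A} {B Q : X} (h : S.Neg W B Q) (f : G) : S.Neg W (f • B) (f • Q) := by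
  intro w hw w' hw'
  have ee : ∀ u, S.r (f • Q) u * S.r (f • B) u = f * (S.r Q u * S.r B u) * f⁻¹ := by
    intro u; rw [← S.conj, ← S.conj]; group
  rw [ee, ee]
  exact (h w hw w' hw').act f

theorem exists_good [Finite ι] (e : Ultrafilter A) (hc : (e : Filter A) ≤ cofinite)
    (he : ∀ p : A → Prop, (∀ᶠ m in (e : Filter A), p m) ↔
      ∀ᶠ a in (e : Filter A), ∀ᶠ b in (e : Filter A), p (a * b)) (B0 : X) :
    ∃ W ∈ e, 1 ∉ W ∧ ∀ B Q : X, S.Pos W B Q ∨ (S.HasOpp ∧ S.Neg W B Q) := by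
  classical
  obtain ⟨pty, hp⟩ := S.exists_pty B0
  have h1 : ∀ t : ι, ∃ W ∈ e, ∀ B Q : X, pty B Q = t →
      S.Pos W B Q ∨ (S.HasOpp ∧ S.Neg W B Q) := by
    intro t
    by_cases ht : ∃ B Q, pty B Q = t
    · obtain ⟨B1, Q1, h0⟩ := ht
      obtain ⟨s, hs, m, hm⟩ := S.eventually_cj e hc he B1 Q1
      refine ⟨_, hm, fun B Q hBQ => ?_⟩
      obtain ⟨f, rfl, rfl⟩ := hp _ _ _ _ (h0.trans hBQ.symm)
      cases s
      · refine Or.inr ⟨hs rfl, Neg.act S (fun w hw w' hw' => ?_) f⟩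
        simpa [th] using (Cj.symm hw).trans hw'
      · refine Or.inl (Pos.act S (fun w hw w' hw' => ?_) f)
        simpa [th] using (Cj.symm hw).trans hw'
    · exact ⟨Set.univ, univ_mem, fun B Q h => absurd ⟨B, Q, h⟩ ht⟩
  choose W hW hW' using h1
  refine ⟨(⋂ t, W t) ∩ {1}ᶜ, inter_mem ((iInter_mem (f := (e : Filter A))).2 hW)
    (hc (Set.finite_singleton 1).compl_mem_cofinite), by simp, fun B Q => ?_⟩
  rcases hW' _ B Q rfl with h | ⟨h0, h⟩
  · exact Or.inl fun w hw w' hw' => h w (Set.mem_iInter.1 hw.1 _) w' (Set.mem_iInter.1 hw'.1 _)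
  · exact Or.inr ⟨h0, fun w hw w' hw' =>
      h w (Set.mem_iInter.1 hw.1 _) w' (Set.mem_iInter.1 hw'.1 _)⟩

end Setup2

end Pool.Agent.H847Z.Frob
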