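import Mathlib
import Pool.Agent.H847Z.CfcA

set_option autoImplicit false

namespace Pool.Agent.H847Z.Frob

open Filter

theorem pigeon {A ι : Type*} [Finite ι] (e : Ultrafilter A) (hc : (e : Filter A) ≤ cofinite)
    (p : A → Prop) (hp : ∀ᶠ a in (e : Filter A), p a) (col : A → ι) :
    ∃ a b, a ≠ b ∧ p a ∧ p b ∧ col a = col b := by
  obtain ⟨k, hk⟩ : ∃ k, ∀ᶠ a in (e : Filter A), col a = k :=
    Ultrafilter.eventually_exists_iff.1 (Eventually.of_forall fun w => ⟨_, rfl⟩)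
  obtain ⟨a, ha, ha'⟩ := (hp.and hk).exists
  have hne : ∀ᶠ x in (e : Filter A), x ≠ a := hc (Set.finite_singleton a).compl_mem_cofinite
  obtain ⟨b, ⟨hb, hb'⟩, hab⟩ := ((hp.and hk).and hne).exists
  exact ⟨a, b, hab.symm, ha, hb, ha'.trans hb'.symm⟩

namespace Setup2

variable {G X A ι : Type*} [Group G] [MulAction G X] [CommGroup A]

/-- The Ramsey data. -/
structure Dat (S : Setup2 G X A ι) where
  e : Ultrafilter A
  hc : (e : Filter A) ≤ cofinite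
  he : ∀ p : A → Prop, (∀ᶠ m in (e : Filter A), p m) ↔
      ∀ᶠ a in (e : Filter A), ∀ᶠ b in (e : Filter A), p (a * b)
  W : Set A
  hW : ∀ᶠ w in (e : Filter A), w ∈ W
  h1 : (1 : A) ∉ W
  dich : ∀ B Q : X, S.Pos W B Q ∨ (S.HasOpp ∧ S.Neg W B Q)
  w0 : A
  hw0 : w0 ∈ W

theorem exists_dat [Finite ι] [Infinite A] (S : Setup2 G X A ι) (B0 : X) : Nonempty S.Dat := by
  obtain ⟨e, hc, he⟩ := exists_idem (cofinite : Filter A) (fun s hs x => by
    have := (mul_right_injective x).tendsto_cofinite hs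
    exact this)
  obtain ⟨W, hW, h1, hd⟩ := S.exists_good e hc he B0
  obtain ⟨w0, hw0⟩ := Ultrafilter.nonempty_of_mem hW
  exact ⟨⟨e, hc, he, W, hW, h1, hd, w0, hw0⟩⟩

variable {S : Setup2 G X A ι}

theorem cj_comm {B : X} {g g' : G} (h : S.Cj B g g') (hg : g • B = B) : g = g' := by
  obtain ⟨v, rfl⟩ := h
  rw [← S.comm_of_fix hg]; group

theorem opp_conj {g : G} {x : X} (h : S.Opp (g • x) x) (u : A) :
    g * S.r x u = S.r x u⁻¹ * g := by
  have := S.conj g x u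
  rw [h] at this
  exact mul_inv_eq_iff_eq_mul.1 this

namespace Dat

variable (D : S.Dat)

theorem ne_one {w : A} (hw : w ∈ D.W) : w ≠ 1 := fun h => D.h1 (h ▸ hw)

theorem ev_ne (a : A) : ∀ᶠ x in (D.e : Filter A), x ≠ a :=
  D.hc (Set.finite_singleton a).compl_mem_cofinite

theorem ev_mul_ne (a b : A) : ∀ᶠ x in (D.e : Filter A), a * x ≠ b := by
  filter_upwards [D.ev_ne (a⁻¹ * b)] with x hx h
  exact hx (by rw [← h]; group)

def Tr (B : X) (g : G) : Prop := ∃ P, S.Pos D.W B P ∧ g = S.r P D.w0 * (S.r B D.w0)⁻¹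

theorem pos_self (B : X) : S.Pos D.W B B := fun w _ w' _ => by
  simp only [mul_inv_cancel]; exact Cj.refl B 1

theorem pos_act_self {B P : X} (h : S.Pos D.W B P) (v : A) : S.Pos D.W B (S.r B v • P) := by
  have := h.act S (S.r B v)
  rwa [S.fix] at this

theorem cj_disp (B P : X) (v w : A) : S.r B v * (S.r P w * (S.r B w)⁻¹) * (S.r B v)⁻¹
    = S.r (S.r B v • P) w * (S.r B w)⁻¹ := by
  rw [← S.conj]
  have hc := S.r_comm B w⁻¹ v⁻¹
  rw [map_inv, map_inv] at hc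
  simp only [mul_assoc, hc]

theorem tr_of_mem {B P : X} (h : S.Pos D.W B P) {w : A} (hw : w ∈ D.W) :
    D.Tr B (S.r P w * (S.r B w)⁻¹) := by
  obtain ⟨v, hv⟩ := h D.w0 D.hw0 w hw
  exact ⟨_, D.pos_act_self h v, by rw [← hv, cj_disp]⟩

theorem tr_rep {B : X} {g : G} (h : D.Tr B g) {w : A} (hw : w ∈ D.W) :
    ∃ P, S.Pos D.W B P ∧ g = S.r P w * (S.r B w)⁻¹ := by
  obtain ⟨P, hP, rfl⟩ := h
  obtain ⟨v, hv⟩ := hP w hw D.w0 D.hw0
  exact ⟨_, D.pos_act_self hP v, by rw [← hv, cj_disp]⟩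

theorem tr_conj {B : X} {g : G} (h : D.Tr B g) (v : A) :
    D.Tr B (S.r B v * g * (S.r B v)⁻¹) := by
  obtain ⟨P, hP, rfl⟩ := h
  exact ⟨_, D.pos_act_self hP v, by rw [cj_disp]⟩

theorem not_opp_of_pos {Q P : X} (h : S.Pos D.W Q P) : ¬ S.Opp P Q := by
  intro ho
  obtain ⟨w, hw, hne⟩ := (D.hW.and (D.ev_ne D.w0)).exists
  have h1 := h w hw D.w0 D.hw0
  rw [ho, ho, ← map_inv, ← map_inv, ← map_mul, ← map_mul] at h1
  have h2 := S.inj Q (cj_comm h1 (S.fix Q _))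
  exact hne (inv_injective (S.sq _ _ h2))

theorem claimA [Finite ι] {Q : X} {g : G} (h : D.Tr Q g) {x : X} (hx : g • x = x) : g = 1 := by
  classical
  by_contra hg
  obtain ⟨P, hP, rfl⟩ := h
  let σ : A → G := fun w => S.r P w * (S.r Q w)⁻¹
  have hPQ : P ≠ Q := fun h => hg (by rw [h, mul_inv_cancel])
  have hσ : ∀ w ∈ D.W, ∃ v, S.r Q v * σ D.w0 * (S.r Q v)⁻¹ = σ w :=
    fun w hw => hP D.w0 D.hw0 w hw
  obtain ⟨w, hw, hw2⟩ := (D.hW.and ((D.he _).1 D.hW)).exists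
  let z : A → G := fun u => S.r Q w * σ u * (S.r Q w)⁻¹
  have hconj : ∀ u ∈ D.W, ∃ v, S.r Q v * σ D.w0 * (S.r Q v)⁻¹ = z u := by
    intro u hu
    obtain ⟨v, hv⟩ := hσ u hu
    exact ⟨w * v, by simp only [z]; rw [← hv, map_mul]; group⟩
  have hprod : ∀ u, σ (w * u) = σ w * z u := by
    intro u
    simp only [σ, z, map_mul]; group
  have hcomm : ∀ a b, a ∈ D.W → w * a ∈ D.W → b ∈ D.W → w * b ∈ D.W → z a * z b = z b * z a :=
    fun a b ha ha' hb hb' => comm_of_orbit (S.r Q) (σ D.w0) (σ w) _ _ (hσ w hw) (hconj a ha)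
      (hconj b hb) (by rw [← hprod]; exact hσ _ ha') (by rw [← hprod]; exact hσ _ hb')
  have hzinj : ∀ a b, z a = z b → a = b := by
    intro a b hab
    have h4 : σ a = σ b := mul_left_cancel (mul_right_cancel hab)
    have h5 : S.r P (b⁻¹ * a) = S.r Q (b⁻¹ * a) := by
      have : S.r P a = S.r P b * (S.r Q b)⁻¹ * S.r Q a := by
        have h6 : S.r P a * (S.r Q a)⁻¹ = S.r P b * (S.r Q b)⁻¹ := h4
        rw [← h6]; group
      rw [map_mul, map_mul, map_inv, map_inv, this]; group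
    by_contra hne
    have h7 : b⁻¹ * a ≠ 1 := fun h => hne (by rw [inv_mul_eq_one] at h; exact h.symm)
    exact hPQ (S.r_eq' h7 h5)
  clear_value z
  have hv : ∀ u, ∃ v, u ∈ D.W → S.r Q v * σ D.w0 * (S.r Q v)⁻¹ = z u := fun u => by
    by_cases hu : u ∈ D.W
    · obtain ⟨v, hv⟩ := hconj u hu
      exact ⟨v, fun _ => hv⟩
    · exact ⟨1, fun h => absurd h hu⟩
  choose v hv using hv
  have hx' : σ D.w0 • x = x := hx
  have hzfix : ∀ u ∈ D.W, z u • (S.r Q (v u) • x) = S.r Q (v u) • x := fun u hu => by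
    rw [← hv u hu, mul_smul, mul_smul, inv_smul_smul, hx']
  have hz1 : ∀ u ∈ D.W, z u ≠ 1 := fun u hu h => by
    have := hv u hu
    rw [h, mul_inv_eq_one, mul_eq_left] at this
    exact hg this
  obtain ⟨a1, ha1, ha1'⟩ := (D.hW.and hw2).exists
  set x1 := S.r Q (v a1) • x with hx1
  have hcase : ∀ a, a ∈ D.W → w * a ∈ D.W → z a • x1 = x1 ∨ S.Opp (z a • x1) x1 := by
    intro a ha ha'
    apply S.fix_cases (hz1 a1 ha1) (hzfix a1 ha1)
    rw [← mul_smul, hcomm a1 a ha1 ha1' ha ha', mul_smul, hzfix a1 ha1]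
  let f : A → G := fun a => S.r Q (v a) * (S.r Q (v a1))⁻¹
  have hf : ∀ a ∈ D.W, z a = f a * z a1 * (f a)⁻¹ := fun a ha => by
    rw [← hv a ha, ← hv a1 ha1]; simp only [f]; group
  clear_value f
  obtain ⟨a, b, hab, ⟨ha, ha'⟩, ⟨hb, hb'⟩, hcol⟩ := pigeon D.e D.hc _ (D.hW.and hw2)
    (fun a => ((z a • x1 = x1 : Prop), S.dty x1 (z a), S.dty x1 (f a)))
  simp only [Prod.mk.injEq, eq_iff_iff] at hcol
  obtain ⟨c1, c2, c3⟩ := hcol
  apply hab
  apply hzinj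
  by_cases hfa : z a • x1 = x1
  · obtain ⟨u, u', huu⟩ := S.dty_eq _ _ _ c3
    have k1 : z a1 * S.r x1 u' = S.r x1 u' * z a1 := S.comm_of_fix (hzfix a1 ha1) u'
    have k2 := S.comm_of_fix hfa u
    rw [hf b hb, huu]
    calc z a = S.r x1 u * z a * (S.r x1 u)⁻¹ := by rw [← k2]; group
      _ = S.r x1 u * (f a * ((z a1 * S.r x1 u') * (S.r x1 u')⁻¹) * (f a)⁻¹) * (S.r x1 u)⁻¹ := by
        rw [hf a ha]; group
      _ = _ := by rw [k1]; group
  · have oa := (hcase a ha ha').resolve_left hfa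
    obtain ⟨u, u', huu⟩ := S.dty_eq _ _ _ c2
    have k1 : z b = z a * S.r x1 (u⁻¹ * u') := by
      rw [huu, map_mul, ← mul_assoc (z a), opp_conj oa, inv_inv]
    have k2 := hcomm a b ha ha' hb hb'
    rw [k1, mul_assoc (z a) (S.r x1 _), mul_right_inj, opp_conj oa, mul_left_inj] at k2
    have k3 := S.inj x1 k2
    by_cases hm : u⁻¹ * u' = 1
    · rw [k1, hm, map_one, mul_one]
    · exact absurd k3.symm (S.ne_inv hm)

theorem pos_symm [Finite ι] {Q P : X} (h : S.Pos D.W Q P) : S.Pos D.W P Q := by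
  classical
  by_cases hPQ : P = Q
  · subst hPQ; exact h
  rcases D.dich P Q with h' | ⟨-, hn⟩
  · exact h'
  exfalso
  have hno : ¬ S.Opp P Q := D.not_opp_of_pos h
  obtain ⟨σ, hσ, hσ2⟩ := (D.hW.and ((D.he _).1 D.hW)).exists
  have hf : ∀ b, ∃ f : G, b ∈ D.W → σ * b ∈ D.W →
      (S.r Q b)⁻¹ * S.r P (σ * b) = f * S.r P σ * f⁻¹ := by
    intro b
    by_cases hb : σ * b ∈ D.W
    · obtain ⟨v, hv⟩ := h σ hσ (σ * b) hb
      refine ⟨(S.r Q b)⁻¹ * S.r Q v, fun _ _ => ?_⟩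
      have e1 : S.r P (σ * b) = S.r Q v * (S.r P σ * (S.r Q σ)⁻¹) * (S.r Q v)⁻¹ * S.r Q (σ * b) := by
        rw [hv]; group
      have e2 : (S.r Q σ)⁻¹ * ((S.r Q v)⁻¹ * S.r Q (σ * b)) = (S.r Q v)⁻¹ * S.r Q b := by
        simp only [← map_inv, ← map_mul]
        congr 1
        rw [mul_left_comm, inv_mul_cancel_left]
      rw [e1]
      simp only [mul_assoc, mul_inv_rev, inv_inv]
      rw [e2]
    · exact ⟨1, fun _ h => absurd h hb⟩
  choose f hf using hf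
  obtain ⟨col, hcol⟩ := S.exists_col (S.fix P σ) P
  obtain ⟨b, b', hbb, ⟨hb, hb2⟩, ⟨hb', hb2'⟩, hc⟩ := pigeon D.e D.hc _ (D.hW.and hσ2)
    (fun b => col (f b))
  have h1 := hcol _ _ hc
  rw [← hf b hb hb2, ← hf b' hb' hb2'] at h1
  set υ := S.r Q D.w0 * S.r P D.w0 with hυ
  have key : ∀ c ∈ D.W, S.Cj P ((S.r Q c)⁻¹ * S.r P (σ * c)) (S.r P (σ * c * c) * υ⁻¹) := by
    intro c hc
    have a1 := Cj.swap (S := S) P (S.r Q c)⁻¹ (σ * c)
    have a2 := ((hn c hc D.w0 D.hw0).inv).mul_left (σ * c * c)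
    refine a1.trans ?_
    have e : S.r P (σ * c) * (S.r Q c)⁻¹ = S.r P (σ * c * c) * (S.r Q c * S.r P c)⁻¹ := by
      rw [map_mul (S.r P) (σ * c)]; group
    rw [e]; exact a2
  have h2 := ((key b hb).symm.trans h1).trans (key b' hb')
  have n1 := S.ne_of (Ne.symm hPQ) (fun ho => hno ho.symm) (inv_ne_one.2 (D.ne_one D.hw0))
  have e3 : υ⁻¹ • P = (S.r P D.w0)⁻¹ • (S.r Q D.w0⁻¹ • P) := by
    rw [hυ, mul_inv_rev, mul_smul, map_inv]
  have hfixP : (S.r P D.w0)⁻¹ • P = P := by rw [← map_inv, S.fix]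
  have h3 := S.uniq_pos (g := υ⁻¹) (Q := P) (by
    rw [e3]
    intro h4
    apply n1.1
    exact MulAction.injective (S.r P D.w0)⁻¹ (h4.trans hfixP.symm)) (by
    rw [e3]
    intro h4
    apply n1.2
    have := h4.act (S.r P D.w0)
    rwa [smul_inv_smul, S.fix] at this) h2
  rw [mul_assoc, mul_assoc, mul_right_inj] at h3
  exact hbb (S.sq _ _ h3)

theorem claimB [Finite ι] {B : X} {τ τ' : G} (h : D.Tr B τ) (h' : D.Tr B τ') {x : X}
    (hx : (τ' * τ⁻¹) • x = x) : τ = τ' := by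
  classical
  have hr : ∀ z, ∃ Q P : X, z ∈ D.W → τ' * τ⁻¹ = S.r P z * (S.r Q z)⁻¹ := by
    intro z
    by_cases hz : z ∈ D.W
    · obtain ⟨Q, -, hQ⟩ := D.tr_rep h hz
      obtain ⟨P, -, hP⟩ := D.tr_rep h' hz
      exact ⟨Q, P, fun _ => by rw [hQ, hP]; group⟩
    · exact ⟨B, B, fun h => absurd h hz⟩
  choose Q P hQP using hr
  set g := τ' * τ⁻¹ with hg
  by_cases hpos : ∃ z ∈ D.W, S.Pos D.W (Q z) (P z)
  · obtain ⟨z, hz, hp⟩ := hpos
    have := D.claimA (D.tr_of_mem hp hz) (by rw [← hQP z hz]; exact hx)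
    rw [← hQP z hz, hg, mul_inv_eq_one] at this
    exact this.symm
  exfalso
  push Not at hpos
  obtain ⟨pty, hp⟩ := S.exists_pty B
  obtain ⟨k, hk⟩ : ∃ k, ∀ᶠ z in (D.e : Filter A), pty (Q z) (P z) = k :=
    Ultrafilter.eventually_exists_iff.1 (Eventually.of_forall fun w => ⟨_, rfl⟩)
  obtain ⟨z0, hz0, hk0⟩ := (D.hW.and hk).exists
  set Q0 := Q z0
  set P0 := P z0
  have hnp : ¬ S.Pos D.W Q0 P0 := hpos z0 hz0
  have hn : S.Neg D.W Q0 P0 := ((D.dich Q0 P0).resolve_left hnp).2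
  have hne : P0 ≠ Q0 := fun h => hnp (h ▸ D.pos_self _)
  have hf : ∀ z, ∃ f : G, z ∈ D.W → pty (Q z) (P z) = k →
      S.r P0 z * (S.r Q0 z)⁻¹ = f * g * f⁻¹ := by
    intro z
    by_cases hz : pty (Q z) (P z) = k
    · obtain ⟨f, f1, f2⟩ := hp _ _ _ _ (hz.trans hk0.symm)
      refine ⟨f, fun hw _ => ?_⟩
      rw [hQP z hw, ← f1, ← f2, ← S.conj, ← S.conj]; group
    · exact ⟨1, fun _ h => absurd h hz⟩
  choose f hf using hf
  obtain ⟨col, hcol⟩ := S.exists_col hx Q0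
  obtain ⟨z, z', hzz, ⟨hz, hz2⟩, ⟨hz', hz2'⟩, hc⟩ := pigeon D.e D.hc _ (D.hW.and hk)
    (fun b => col (f b))
  have h1 := hcol _ _ hc
  rw [← hf z hz hz2, ← hf z' hz' hz2'] at h1
  by_cases ho : S.Opp P0 Q0
  · rw [ho, ho, ← map_inv, ← map_inv, ← map_mul, ← map_mul] at h1
    have h2 := S.inj Q0 (cj_comm h1 (S.fix Q0 _))
    exact hzz (inv_injective (S.sq _ _ h2))
  set υ := S.r P0 D.w0 * S.r Q0 D.w0 with hυ
  have key : ∀ c ∈ D.W, S.Cj Q0 (S.r P0 c * (S.r Q0 c)⁻¹) (S.r Q0 (c * c)⁻¹ * υ) := by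
    intro c hc
    have a2 := (hn c hc D.w0 D.hw0).mul_left (c * c)⁻¹
    refine Cj.trans ?_ a2
    have e : S.r P0 c * (S.r Q0 c)⁻¹ = S.r P0 c * S.r Q0 c * S.r Q0 (c * c)⁻¹ := by
      rw [map_inv, map_mul]; group
    rw [e]; exact Cj.swap _ _ _
  have h2 := ((key z hz).symm.trans h1).trans (key z' hz')
  have n1 := S.ne_of hne ho (D.ne_one D.hw0)
  have e3 : υ • Q0 = S.r P0 D.w0 • Q0 := by rw [hυ, mul_smul, S.fix]
  have h3 := S.uniq_pos (g := υ) (Q := Q0) (by rw [e3]; exact n1.1) (by rw [e3]; exact n1.2) h2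
  exact hzz (S.sq _ _ (inv_injective h3))

end Dat

end Setup2

end Pool.Agent.H847Z.Frob
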