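import Mathlib
import Pool.Agent.H847Z.FrobA

set_option autoImplicit false

namespace Pool.Agent.H847Z.Frob

open Filter Pointwise

theorem comm_of_orbit_aut {G A : Type*} [Group G] [CommGroup A] (φ : A →* MulAut G)
    (y z z' : G) (hz : ∃ v, φ v y = z) (hz' : ∃ v, φ v y = z') (hyz : ∃ v, φ v y = y * z)
    (hyz' : ∃ v, φ v y = y * z') : z * z' = z' * z := by
  have hc : ∀ u v g, φ u (φ v g) = φ v (φ u g) := fun u v g => by
    rw [← MulAut.mul_apply, ← map_mul, mul_comm, map_mul, MulAut.mul_apply]
  obtain ⟨a, ha⟩ := hz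
  obtain ⟨d, hd⟩ := hz'
  obtain ⟨c, hcy⟩ := hyz
  obtain ⟨d', hd'⟩ := hyz'
  have hall : ∀ d : A, φ c (φ d y) = φ d y * φ a (φ d y) := fun d => by
    rw [hc c d, hcy, map_mul, hc a d, ha]
  have e1 := hall d
  have e2 := hall d'
  rw [hd] at e1
  rw [hd', map_mul (φ c), map_mul (φ a), hcy, e1, ha] at e2
  have : y * (z * z') * φ a z' = y * (z' * z) * φ a z' := by
    simpa only [mul_assoc] using e2
  exact mul_left_cancel (mul_right_cancel this)

/-- An idempotent ultrafilter all of whose subgroups have finite index. -/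
theorem exists_idem_finiteIndex (N : Type*) [Group N] :
    ∃ U : Ultrafilter N, (∀ K : Subgroup N, (K : Set N) ∈ U → K.FiniteIndex) ∧
      ∀ p : N → Prop, (∀ᶠ m in (U : Filter N), p m) ↔
        ∀ᶠ a in (U : Filter N), ∀ᶠ b in (U : Filter N), p (a * b) := by
  classical
  let T : Set (Set N) := {s | ∃ (K : Subgroup N) (g : N), ¬ K.FiniteIndex ∧ s = (g • (K : Set N))ᶜ}
  have hne : (generate T).NeBot := by
    rw [generate_neBot_iff]
    intro t ht hfin
    by_contra hemp
    rw [Set.not_nonempty_iff_eq_empty] at hemp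
    have := hfin.fintype
    choose K g hK hg using fun s : t => ht s.2
    have hcov : ⋃ i ∈ (Finset.univ : Finset t), g i • (K i : Set N) = Set.univ := by
      rw [Set.eq_univ_iff_forall]
      intro x
      by_contra hx
      have : x ∈ ⋂₀ t := by
        intro s hs
        have e : s = _ := hg ⟨s, hs⟩
        rw [e]
        intro hx'
        apply hx
        simp only [Set.mem_iUnion]
        exact ⟨⟨s, hs⟩, Finset.mem_univ _, hx'⟩
      rw [hemp] at this
      exact this
    obtain ⟨k, -, hk⟩ := Subgroup.exists_finiteIndex_of_leftCoset_cover hcov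
    exact hK k hk
  obtain ⟨U, hU, he⟩ := exists_idem (generate T) (fun s hs x => by
    have : map (fun y => x * y) (generate T) ≤ generate T := by
      rw [le_generate_iff]
      rintro _ ⟨K, g, hK, rfl⟩
      change (fun y => x * y) ⁻¹' (g • (K : Set N))ᶜ ∈ generate T
      apply mem_generate_of_mem
      refine ⟨K, x⁻¹ * g, hK, ?_⟩
      ext y
      simp only [Set.preimage_compl, Set.mem_compl_iff, Set.mem_preimage, mem_leftCoset_iff,
        mul_inv_rev, inv_inv, mul_assoc]
    exact this hs)
  refine ⟨U, fun K hK => ?_, he⟩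
  by_contra hfi
  have h1 : ((1 : N) • (K : Set N))ᶜ ∈ (U : Filter N) := hU (mem_generate_of_mem ⟨K, 1, hfi, rfl⟩)
  rw [one_smul] at h1
  exact (Ultrafilter.compl_mem_iff_notMem.1 h1) hK

/-- A group on which an abelian group acts with finitely many orbits is abelian-by-finite. -/
theorem abelian_by_finite {N A ι : Type*} [Group N] [CommGroup A] [Finite ι]
    (φ : A →* MulAut N) (ty : N → ι) (hty : ∀ n n', ty n = ty n' → ∃ v, φ v n = n') :
    ∃ K : Subgroup N, K.FiniteIndex ∧ ∀ a ∈ K, ∀ b ∈ K, a * b = b * a := by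
  obtain ⟨U, hU, he⟩ := exists_idem_finiteIndex N
  obtain ⟨k, hk⟩ : ∃ k, ∀ᶠ n in (U : Filter N), ty n = k :=
    Ultrafilter.eventually_exists_iff.1 (Eventually.of_forall fun w => ⟨_, rfl⟩)
  obtain ⟨y, hy, hy2⟩ := (hk.and ((he _).1 hk)).exists
  let C : Set N := {z | ty z = k ∧ ty (y * z) = k}
  have hC : C ∈ (U : Filter N) := hk.and hy2
  have hcomm : ∀ z ∈ C, ∀ z' ∈ C, z * z' = z' * z := fun z hz z' hz' =>
    comm_of_orbit_aut φ y z z' (hty _ _ (hy.trans hz.1.symm)) (hty _ _ (hy.trans hz'.1.symm))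
      (hty _ _ (hy.trans hz.2.symm)) (hty _ _ (hy.trans hz'.2.symm))
  refine ⟨Subgroup.closure C, hU _ (mem_of_superset hC Subgroup.subset_closure), ?_⟩
  have h1 : Subgroup.closure C ≤ Subgroup.centralizer C := by
    rw [Subgroup.closure_le]
    intro z hz
    exact Subgroup.mem_centralizer_iff.2 fun z' hz' => hcomm z' hz' z hz
  have h2 : Subgroup.closure C ≤ Subgroup.centralizer (Subgroup.closure C : Set N) := by
    rw [Subgroup.closure_le]
    intro z hz
    exact Subgroup.mem_centralizer_iff.2 fun a ha =>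
      (Subgroup.mem_centralizer_iff.1 (h1 ha) z hz).symm
  intro a ha b hb
  exact Subgroup.mem_centralizer_iff.1 (h2 hb) a ha

theorem comm_of_simple {N : Type*} [Group N] [Infinite N]
    (hs : ∀ K : Subgroup N, K.Characteristic → K = ⊥ ∨ K = ⊤)
    (K : Subgroup N) (hK : K.FiniteIndex) (hab : ∀ a ∈ K, ∀ b ∈ K, a * b = b * a) :
    ∀ a b : N, a * b = b * a := by
  have hnb : ∀ L : Subgroup N, L.FiniteIndex → ∃ c ∈ L, c ≠ 1 := by
    intro L hL
    by_contra h
    push Not at h
    have : L = ⊥ := (Subgroup.eq_bot_iff_forall L).2 h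
    subst this
    have := hL.index_ne_zero
    rw [Subgroup.index_bot] at this
    exact this Nat.card_eq_zero_of_infinite
  let FC : Subgroup N :=
    { carrier := {g | ∃ L : Subgroup N, L.FiniteIndex ∧ ∀ l ∈ L, l * g = g * l}
      one_mem' := ⟨⊤, inferInstance, by simp⟩
      inv_mem' := by
        rintro g ⟨L, hL, h⟩
        exact ⟨L, hL, fun l hl => (Commute.inv_right (h l hl)).eq⟩
      mul_mem' := by
        rintro a b ⟨L, hL, h⟩ ⟨L', hL', h'⟩
        exact ⟨L ⊓ L', inferInstance, fun l hl =>
          (Commute.mul_right (h l hl.1) (h' l hl.2)).eq⟩ }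
  have hFC : FC.Characteristic := by
    rw [Subgroup.characteristic_iff_le_comap]
    rintro ψ g ⟨L, hL, h⟩
    refine ⟨L.comap ψ.symm.toMonoidHom, ⟨?_⟩, fun l hl => ?_⟩
    · rw [Subgroup.index_comap_of_surjective _ ψ.symm.surjective]
      exact hL.index_ne_zero
    · have := congrArg ψ (h _ hl)
      simpa using this
  have hFCtop : FC = ⊤ := by
    rcases hs FC hFC with h | h
    · obtain ⟨c, hc, hc1⟩ := hnb K hK
      have : c ∈ FC := ⟨K, hK, fun l hl => hab l hl c hc⟩
      rw [h] at this
      exact absurd this hc1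
    · exact h
  have hall : ∀ g : N, ∃ L : Subgroup N, L.FiniteIndex ∧ ∀ l ∈ L, l * g = g * l := fun g => by
    have : g ∈ FC := hFCtop ▸ Subgroup.mem_top g
    exact this
  choose L hL hL' using hall
  have hfi : (⨅ q : N ⧸ K, L q.out).FiniteIndex := Subgroup.finiteIndex_iInf fun q => hL _
  obtain ⟨c, ⟨hcK, hcL⟩, hc1⟩ := hnb (K ⊓ ⨅ q : N ⧸ K, L q.out) inferInstance
  have hcz : c ∈ Subgroup.center N := by
    rw [Subgroup.mem_center_iff]
    intro g
    obtain ⟨k, hk⟩ := QuotientGroup.mk_out_eq_mul K g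
    have h1 := hL' _ c (Subgroup.mem_iInf.1 hcL (g : N ⧸ K))
    have h2 := hab c hcK k k.2
    have h3 : g = (g : N ⧸ K).out * (k : N)⁻¹ := by rw [hk]; group
    rw [h3]
    exact (Commute.mul_right (show Commute c _ from h1) (Commute.inv_right h2)).eq.symm
  rcases hs (Subgroup.center N) inferInstance with h | h
  · rw [h] at hcz
    exact absurd hcz hc1
  · intro a b
    have : b ∈ Subgroup.center N := h ▸ Subgroup.mem_top b
    exact Subgroup.mem_center_iff.1 this a

/-- A simple module over the group ring of a finitely generated abelian group is finite. -/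
theorem finite_of_simple {V A : Type*} [AddCommGroup V] [CommGroup A] [Group.FG A]
    (ρ : A →* Module.End ℤ V)
    (hs : ∀ U : AddSubgroup V, (∀ v, ∀ u ∈ U, ρ v u ∈ U) → U = ⊥ ∨ U = ⊤) : Finite V := by
  by_cases hV : ∃ x : V, x ≠ 0
  swap
  · push Not at hV
    have : Subsingleton V := ⟨fun a b => by rw [hV a, hV b]⟩
    infer_instance
  obtain ⟨x, hx⟩ := hV
  have : Monoid.FG A := Group.fg_iff_monoid_fg.1 inferInstance
  let f : MonoidAlgebra ℤ A →ₐ[ℤ] Module.End ℤ V := MonoidAlgebra.lift ℤ (Module.End ℤ V) A ρ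
  have hf : ∀ v, f (MonoidAlgebra.of ℤ A v) = ρ v := fun v => by simp [f]
  have hsurj : ∀ y : V, y ≠ 0 → ∀ y' : V, ∃ s, f s y = y' := by
    intro y hy
    let U : AddSubgroup V :=
      { carrier := {y' | ∃ s, f s y = y'}
        zero_mem' := ⟨0, by simp⟩
        add_mem' := by
          rintro _ _ ⟨s, rfl⟩ ⟨t, rfl⟩
          exact ⟨s + t, by simp⟩
        neg_mem' := by
          rintro _ ⟨s, rfl⟩
          exact ⟨-s, by simp⟩ }
    rcases hs U (by
      rintro v _ ⟨s, rfl⟩
      exact ⟨MonoidAlgebra.of ℤ A v * s, by rw [map_mul, hf]; rfl⟩) with h | h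
    · have : y ∈ U := ⟨1, by simp⟩
      rw [h] at this
      exact absurd this hy
    · intro y'
      have : y' ∈ U := h ▸ AddSubgroup.mem_top y'
      exact this
  let m : Ideal (MonoidAlgebra ℤ A) :=
    { carrier := {s | f s x = 0}
      zero_mem' := by simp
      add_mem' := fun {a b} ha hb => by
        have ha' : f a x = 0 := ha
        have hb' : f b x = 0 := hb
        show f (a + b) x = 0
        simp [ha', hb']
      smul_mem' := fun c a ha => by
        have ha' : f a x = 0 := ha
        show f (c * a) x = 0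
        rw [map_mul, Module.End.mul_apply, ha', map_zero] }
  have hm : m.IsMaximal := by
    rw [Ideal.isMaximal_iff]
    refine ⟨fun h => hx (by simpa [m] using h), fun J r hJ hr hrJ => ?_⟩
    obtain ⟨s, hs'⟩ := hsurj (f r x) hr x
    have h1 : 1 - s * r ∈ m := by
      show f (1 - s * r) x = 0
      rw [map_sub, map_mul, map_one, LinearMap.sub_apply, Module.End.mul_apply, hs']
      simp
    have := J.add_mem (hJ h1) (J.mul_mem_left s hrJ)
    simpa using this
  let _ : Field (MonoidAlgebra ℤ A ⧸ m) := Ideal.Quotient.field m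
  have h0 : Algebra.FiniteType ℤ (MonoidAlgebra ℤ A ⧸ m) :=
    Algebra.FiniteType.of_surjective (Ideal.Quotient.mkₐ ℤ m) Ideal.Quotient.mk_surjective
  have hfin : Finite (MonoidAlgebra ℤ A ⧸ m) :=
    @finite_field_of_finiteType _ _ (by
      convert h0
      · rfl
      · exact Subsingleton.elim _ _)
  choose s hs' using hsurj x hx
  refine Finite.of_injective (fun y => Ideal.Quotient.mk m (s y)) fun y y' h => ?_
  have h1 : s y - s y' ∈ m := Ideal.Quotient.eq.1 h
  have h2 : f (s y - s y') x = 0 := h1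
  rw [map_sub, LinearMap.sub_apply, hs', hs'] at h2
  exact sub_eq_zero.1 h2

theorem split_finite {N A ι : Type*} [Group N] [CommGroup A] [Group.FG A] [Finite ι]
    (φ : A →* MulAut N) (ty : N → ι) (hty : ∀ n n', ty n = ty n' → ∃ v, φ v n = n')
    (hs : ∀ K : Subgroup N, K.Normal → (∀ v, ∀ k ∈ K, φ v k ∈ K) → K = ⊥ ∨ K = ⊤) :
    Finite N := by
  by_contra hinf
  rw [not_finite_iff_infinite] at hinf
  obtain ⟨K, hK, hab⟩ := abelian_by_finite φ ty hty
  have hcomm := comm_of_simple (fun L hL => hs L inferInstance fun v k hk => by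
    have := (Subgroup.characteristic_iff_le_comap.1 hL) (φ v) hk
    exact this) K hK hab
  let _ : CommGroup N := { (inferInstance : Group N) with mul_comm := hcomm }
  let ρ : A →* Module.End ℤ (Additive N) :=
    { toFun := fun v => (MonoidHom.toAdditive (φ v).toMonoidHom).toIntLinearMap
      map_one' := by ext x; simp
      map_mul' := fun a b => by ext x; simp }
  have hfin : Finite (Additive N) := by
    refine finite_of_simple ρ fun U hU => ?_
    rcases hs (AddSubgroup.toSubgroup' U) inferInstance (fun v k hk => hU v _ hk) with h | h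
    · left
      rw [eq_bot_iff]
      intro u hu
      have : Additive.toMul u ∈ AddSubgroup.toSubgroup' U := hu
      rw [h] at this
      exact this
    · right
      rw [eq_top_iff]
      intro u _
      have : Additive.toMul u ∈ AddSubgroup.toSubgroup' U := h ▸ Subgroup.mem_top _
      exact this
  have : Finite N := hfin
  exact not_finite N

end Pool.Agent.H847Z.Frob
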