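import Mathlib
import Pool.Agent.H847Z.CfcB
import Pool.Agent.H847Z.FrobD

set_option autoImplicit false

namespace Pool.Agent.H847Z.Frob

open Filter

universe u

/-- An action by endomorphisms of a group is an action by automorphisms. -/
def endToAut {N A : Type*} [Group N] [Group A] (ψ : A →* Monoid.End N) : A →* MulAut N where
  toFun v :=
    { toFun := ψ v
      invFun := ψ v⁻¹
      left_inv := fun n => by
        show (ψ v⁻¹ * ψ v) n = n
        rw [← map_mul]; simp
      right_inv := fun n => by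
        show (ψ v * ψ v⁻¹) n = n
        rw [← map_mul]; simp
      map_mul' := fun a b => map_mul _ a b }
  map_one' := by ext n; simp
  map_mul' a b := by ext n; simp

theorem endToAut_apply {N A : Type*} [Group N] [Group A] (ψ : A →* Monoid.End N) (v : A) (n : N) :
    endToAut ψ v n = ψ v n := rfl

theorem split_finite_aux {A : Type*} [CommGroup A] [Group.FG A] (k : ℕ) :
    ∀ (N : Type u) [Group N] (ι : Type) [Finite ι] (_ : Nat.card ι ≤ k)
      (φ : A →* MulAut N) (ty : N → ι) (_ : ∀ n n', ty n = ty n' → ∃ v, φ v n = n'),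
      Finite N := by
  classical
  induction k with
  | zero =>
    intro N _ ι _ hk φ ty _
    have : Nonempty ι := ⟨ty 1⟩
    have := Nat.card_pos (α := ι)
    omega
  | succ k ih =>
    intro N _ ι _ hk φ ty hty
    by_cases hs : ∀ K : Subgroup N, K.Normal → (∀ v, ∀ n ∈ K, φ v n ∈ K) → K = ⊥ ∨ K = ⊤
    · exact split_finite φ ty hty hs
    push Not at hs
    obtain ⟨K, hK, hinv, hb, ht⟩ := hs
    have hcard : ∀ t : ι, Nat.card {s : ι // s ≠ t} ≤ k := fun t => by
      have := Finite.card_subtype_lt (p := fun s => s ≠ t) (x := t) (by simp)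
      omega
    obtain ⟨n0, hn0⟩ : ∃ n0, n0 ∉ K := by
      by_contra h
      push Not at h
      exact ht ((Subgroup.eq_top_iff' K).2 h)
    obtain ⟨k0, hk0, hk01⟩ : ∃ k0 ∈ K, k0 ≠ 1 := by
      by_contra h
      push Not at h
      exact hb ((Subgroup.eq_bot_iff_forall K).2 h)
    have f1 : Finite K := by
      let ψ : A →* Monoid.End K :=
        { toFun := fun v => ((φ v).toMonoidHom.comp K.subtype).codRestrict K fun n => hinv v n n.2
          map_one' := MonoidHom.ext fun n => Subtype.ext (by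
            show φ 1 n = n
            simp)
          map_mul' := fun a b => MonoidHom.ext fun n => Subtype.ext (by
            show φ (a * b) n = φ a (φ b n)
            simp) }
      refine ih K {s : ι // s ≠ ty n0} (hcard _) (endToAut ψ)
        (fun n => ⟨ty n, fun h => ?_⟩) fun n n' h => ?_
      · obtain ⟨v, hv⟩ := hty _ _ h
        exact hn0 (hv ▸ hinv v n n.2)
      · obtain ⟨v, hv⟩ := hty _ _ (congrArg Subtype.val h)
        exact ⟨v, Subtype.ext hv⟩
    have f2 : Finite (N ⧸ K) := by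
      let ψ : A →* Monoid.End (N ⧸ K) :=
        { toFun := fun v => QuotientGroup.map K K (φ v).toMonoidHom fun n hn => hinv v n hn
          map_one' := by
            refine MonoidHom.ext fun q => ?_
            induction q using QuotientGroup.induction_on with
            | H n =>
              show ((φ 1 n : N) : N ⧸ K) = n
              simp
          map_mul' := fun a b => by
            refine MonoidHom.ext fun q => ?_
            induction q using QuotientGroup.induction_on with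
            | H n =>
              show ((φ (a * b) n : N) : N ⧸ K) = ((φ a (φ b n) : N) : N ⧸ K)
              simp }
      have hψ : ∀ v (n : N), endToAut ψ v (n : N ⧸ K) = (φ v n : N) := fun v n => rfl
      have h1 : ∀ n, ty 1 = ty n → n = 1 := fun n h => by
        obtain ⟨v, hv⟩ := hty _ _ h
        rw [← hv, map_one]
      have hout : ∀ q : N ⧸ K, q.out ∈ K → q = 1 := fun q h => by
        rw [← q.out_eq]
        exact (QuotientGroup.eq_one_iff _).2 h
      refine ih (N ⧸ K) {s : ι // s ≠ ty k0} (hcard _) (endToAut ψ)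
        (fun q => ⟨if q = 1 then ty 1 else ty q.out, ?_⟩) fun q q' h => ?_
      · split_ifs with hq
        · exact fun h => hk01 (h1 _ h)
        · intro h
          obtain ⟨v, hv⟩ := hty _ _ h.symm
          exact hq (hout q (hv ▸ hinv v k0 hk0))
      · have h' : (if q = 1 then ty 1 else ty q.out) = (if q' = 1 then ty 1 else ty q'.out) :=
          congrArg Subtype.val h
        by_cases hq : q = 1 <;> by_cases hq' : q' = 1
        · exact ⟨1, by rw [hq, hq']; simp⟩
        · rw [if_pos hq, if_neg hq'] at h'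
          exact absurd (hout q' (h1 _ h' ▸ K.one_mem)) hq'
        · rw [if_neg hq, if_pos hq'] at h'
          exact absurd (hout q (h1 _ h'.symm ▸ K.one_mem)) hq
        · rw [if_neg hq, if_neg hq'] at h'
          obtain ⟨v, hv⟩ := hty _ _ h'
          refine ⟨v, ?_⟩
          rw [← q.out_eq, ← q'.out_eq, ← hv]
          exact hψ v _
    have f3 : Finite ((N ⧸ K) × K) := @Finite.instProd _ _ f2 f1
    exact @Finite.of_equiv _ _ f3 (Subgroup.groupEquivQuotientProdSubgroup (s := K)).symm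

theorem split_finite_gen {A : Type*} [CommGroup A] [Group.FG A] {N : Type u} [Group N]
    {ι : Type*} [Finite ι] (φ : A →* MulAut N) (ty : N → ι)
    (hty : ∀ n n', ty n = ty n' → ∃ v, φ v n = n') : Finite N := by
  obtain ⟨k, ⟨e⟩⟩ := Finite.exists_equiv_fin ι
  exact split_finite_aux _ N (Fin k) le_rfl φ (fun n => e (ty n))
    fun n n' h => hty n n' (e.injective h)

namespace Setup2

variable {G X A ι : Type*} [Group G] [MulAction G X] [CommGroup A] {S : Setup2 G X A ι}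

theorem exists_opp (h : S.HasOpp) (P : X) : ∃ P', S.Opp P' P := by
  obtain ⟨P0, Q0, h0⟩ := h
  obtain ⟨g, rfl⟩ := S.trans Q0 P
  exact ⟨_, h0.act g⟩

namespace Dat

variable (D : S.Dat)

theorem pos_of_neg {Q P P' : X} (h : S.Neg D.W Q P) (ho : S.Opp P' P) : S.Pos D.W Q P' := by
  intro w hw w' hw'
  have e : ∀ c, S.Cj Q (S.r Q c⁻¹ * S.r P' c) (S.r P' c * (S.r Q c)⁻¹) := fun c => by
    rw [← map_inv]; exact (Cj.swap Q _ _).symm
  have e2 : ∀ c, (S.r P c * S.r Q c)⁻¹ = S.r Q c⁻¹ * S.r P' c := fun c => by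
    rw [ho, mul_inv_rev, map_inv, map_inv]
  have := (h w hw w' hw').inv
  rw [e2, e2] at this
  exact ((e w).symm.trans this).trans (e w')

def Good (y : A) : Prop := ∀ Q B : X, S.Pos D.W Q B → D.Tr Q (S.r B y * (S.r Q y)⁻¹)

theorem good_of_mem {w : A} (hw : w ∈ D.W) : D.Good w := fun _ _ h => D.tr_of_mem h hw

theorem good_surj [Finite ι] {y : A} (hy : D.Good y) (hy1 : y ≠ 1) {Q : X} {τ : G}
    (hτ : D.Tr Q τ) : ∃ B, S.Pos D.W Q B ∧ τ = S.r B y * (S.r Q y)⁻¹ := by
  classical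
  have hΨ : ∀ B, ∃ P, S.Pos D.W Q B →
      S.Pos D.W Q P ∧ S.r B y * (S.r Q y)⁻¹ = S.r P D.w0 * (S.r Q D.w0)⁻¹ := fun B => by
    by_cases h : S.Pos D.W Q B
    · obtain ⟨P, hP⟩ := hy Q B h
      exact ⟨P, fun _ => hP⟩
    · exact ⟨B, fun h' => absurd h' h⟩
  choose Ψ hΨ using hΨ
  obtain ⟨oty, ho⟩ := S.exists_oty Q
  obtain ⟨P, hP, rfl⟩ := hτ
  obtain ⟨B, hB, hBP⟩ := surj_on (S.Pos D.W Q) (fun a x => S.r Q a • x) (by simp)
    (fun a b x => by rw [map_mul, mul_smul]) (fun a x h => D.pos_act_self h a) oty ho Ψ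
    (fun x h => (hΨ x h).1) (fun x x' h h' hxx => by
      have e := (hΨ x h).2
      rw [hxx, ← (hΨ x' h').2] at e
      exact S.r_eq' hy1 (mul_right_cancel e))
    (fun a x h => by
      have e1 := (hΨ _ (D.pos_act_self h a)).2
      rw [← cj_disp, (hΨ x h).2, cj_disp] at e1
      exact (S.r_eq' (D.ne_one D.hw0) (mul_right_cancel e1)).symm) P hP
  exact ⟨B, hB, by rw [(hΨ B hB).2, hBP]⟩

theorem good_rep [Finite ι] {y w w' : A} (hw : D.Good w) (hz : D.Good (y * w)) (hz1 : y * w ≠ 1)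
    (hw' : D.Good w') (hz' : D.Good (y * w')) (hz1' : y * w' ≠ 1) (hne : w ≠ w') : D.Good y := by
  intro Q B hQB
  have aux : ∀ w, D.Good w → D.Good (y * w) → y * w ≠ 1 → D.Tr Q (S.r B y * (S.r Q y)⁻¹) ∨
      ∃ τ, D.Tr Q τ ∧ τ = (S.r B y)⁻¹ * (S.r Q (w * (y * w)))⁻¹ := by
    intro w hw hz hz1
    obtain ⟨P, hP, e⟩ := D.good_surj hz hz1 (hw B Q (D.pos_symm hQB))
    have e1 : S.r B y = (S.r Q w)⁻¹ * S.r P (y * w) := by
      have : S.r P (y * w) = S.r Q w * (S.r B w)⁻¹ * S.r B (y * w) := by rw [e]; group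
      rw [this, mul_comm y w, map_mul]; group
    rcases D.dich Q P with h | ⟨ho, h⟩
    · left
      have := D.tr_conj (hz Q P h) w⁻¹
      rw [e1]
      convert this using 1
      rw [mul_comm y w, map_mul (S.r Q), map_inv]; group
    · right
      obtain ⟨P', hP'⟩ := exists_opp ho P
      refine ⟨_, hz Q P' (D.pos_of_neg h hP'), ?_⟩
      rw [e1, hP', map_inv, mul_comm w (y * w), map_mul (S.r Q) (y * w)]; group
  rcases aux w hw hz hz1 with h | ⟨τ, hτ, e⟩
  · exact h
  rcases aux w' hw' hz' hz1' with h | ⟨τ', hτ', e'⟩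
  · exact h
  exfalso
  have h1 : (τ' * τ⁻¹) • (τ • Q) = τ • Q := by
    rw [mul_smul, inv_smul_smul, e, e', mul_smul, mul_smul, ← map_inv (S.r Q), ← map_inv (S.r Q),
      S.fix, S.fix]
  have h2 := D.claimB hτ hτ' h1
  rw [e, e', mul_right_inj, inv_inj] at h2
  have h3 := S.inj Q h2
  rw [mul_left_comm, mul_left_comm w', mul_right_inj] at h3
  exact hne (S.sq _ _ h3)

theorem good_div [Finite ι] {a b : A} (ha : ∀ᶠ u in (D.e : Filter A), a * u ∈ D.W)
    (hb : ∀ᶠ u in (D.e : Filter A), b * u ∈ D.W) : D.Good (b * a⁻¹) := by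
  obtain ⟨u, u', huu, ⟨h1, h2⟩, ⟨h1', h2'⟩, -⟩ := pigeon D.e D.hc _ (ha.and hb) (fun _ => ())
  have e : ∀ c, b * a⁻¹ * (a * c) = b * c := fun c => by group
  refine D.good_rep (D.good_of_mem h1) ?_ ?_ (D.good_of_mem h1') ?_ ?_
    (fun h => huu (mul_left_cancel h))
  all_goals rw [e]
  exacts [D.good_of_mem h2, D.ne_one h2, D.good_of_mem h2', D.ne_one h2']

theorem exists_good_sq [Finite ι] : ∃ z : A, z ≠ 1 ∧ D.Good z ∧ D.Good (z * z) := by
  have h1 : ∀ᶠ a in (D.e : Filter A), ∀ᶠ u in (D.e : Filter A), a * u ∈ D.W := (D.he _).1 D.hW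
  have h2 := (D.he (fun a => ∀ᶠ u in (D.e : Filter A), a * u ∈ D.W)).1 h1
  obtain ⟨a, b, hab, ⟨ha, ha2⟩, ⟨hb, hb2⟩, -⟩ := pigeon D.e D.hc _ (h1.and h2) (fun _ => ())
  refine ⟨b * a⁻¹, fun h => hab (by rw [mul_inv_eq_one] at h; exact h.symm), D.good_div ha hb, ?_⟩
  obtain ⟨u, u', huu, ⟨⟨h3, h4⟩, h5⟩, ⟨⟨h3', h4'⟩, h5'⟩, -⟩ :=
    pigeon D.e D.hc _ ((ha2.and hb2).and (D.ev_mul_ne b a)) (fun _ => ())
  have e : ∀ c, b * a⁻¹ * (b * a⁻¹) * (a * c * b⁻¹) = b * c * a⁻¹ := fun c => by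
    apply Additive.ofMul.injective
    simp only [ofMul_mul, ofMul_inv]
    abel
  refine D.good_rep (D.good_div hb h3) ?_ ?_ (D.good_div hb h3') ?_ ?_
    (fun h => huu (mul_left_cancel (mul_right_cancel h)))
  all_goals rw [e]
  exacts [D.good_div ha h4, fun h => h5 (mul_inv_eq_one.1 h), D.good_div ha h4',
    fun h => h5' (mul_inv_eq_one.1 h)]

theorem euclid [Finite ι] {B P Q : X} (hP : S.Pos D.W B P) (hQ : S.Pos D.W B Q) :
    S.Pos D.W Q P := by
  rcases D.dich Q P with h | ⟨ho, h⟩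
  · exact h
  obtain ⟨z, hz1, hz, hzz⟩ := D.exists_good_sq
  obtain ⟨P', hP'⟩ := exists_opp ho P
  have hzz1 : z * z ≠ 1 := fun h => hz1 (S.sq z 1 (by rw [h, one_mul]))
  obtain ⟨B', -, e⟩ := D.good_surj hzz hzz1 (hz Q P' (D.pos_of_neg h hP'))
  have e1 : S.r Q z = S.r P z * S.r B' (z * z) := by
    have : S.r B' (z * z) = S.r P' z * (S.r Q z)⁻¹ * S.r Q (z * z) := by rw [e]; group
    rw [this, hP', map_inv, map_mul]; group
  have e2 : S.r Q z • B' = S.r P z • B' := by rw [e1, mul_smul, S.fix]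
  have h1 := D.claimB (hz B Q hQ) (hz B P hP) (x := S.r Q z • B') (by
    have : S.r P z * (S.r B z)⁻¹ * (S.r Q z * (S.r B z)⁻¹)⁻¹ = S.r P z * (S.r Q z)⁻¹ := by group
    rw [this, mul_smul, inv_smul_smul, e2])
  rw [S.r_eq' hz1 (mul_right_cancel h1)]
  exact D.pos_self P

theorem pos_trans [Finite ι] {B P Q : X} (h1 : S.Pos D.W B P) (h2 : S.Pos D.W P Q) :
    S.Pos D.W B Q := D.euclid h2 (D.pos_symm h1)

theorem pos_smul [Finite ι] {B x : X} {g : G} (hg : S.Pos D.W B (g • B)) (hx : S.Pos D.W B x) :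
    S.Pos D.W B (g • x) := D.pos_trans hg (hx.act S g)

theorem pos_r [Finite ι] {B P x : X} (hP : S.Pos D.W B P) (hx : S.Pos D.W B x) (u : A) :
    S.Pos D.W B (S.r P u • x) :=
  D.pos_trans hP (D.pos_act_self (D.euclid hx hP) u)

theorem latin [Finite ι] {P P' x : X} (h : S.Pos D.W P' P)
    (hx : S.r P D.w0 • x = S.r P' D.w0 • x) : P = P' := by
  have := D.claimA (D.tr_of_mem h D.hw0) (x := S.r P' D.w0 • x)
    (by rw [mul_smul, inv_smul_smul, hx])
  exact S.r_eq' (D.ne_one D.hw0) (mul_inv_eq_one.1 this)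

theorem latin_surj [Finite ι] {B x y : X} (hx : S.Pos D.W B x) (hy : S.Pos D.W B y) :
    ∃ P, S.Pos D.W B P ∧ S.r P D.w0 • x = y := by
  obtain ⟨oty, ho⟩ := S.exists_oty x
  exact surj_on (S.Pos D.W B) (fun a P => S.r x a • P) (by simp)
    (fun a b x => by rw [map_mul, mul_smul]) (fun a P h => D.pos_r hx h a) oty ho
    (fun P => S.r P D.w0 • x) (fun P h => D.pos_r h hx _)
    (fun P P' h h' e => D.latin (D.euclid h h') e)
    (fun a P _ => by rw [← S.conj, mul_smul, mul_smul, ← map_inv, S.fix]) y hy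

theorem fix_of [Finite ι] {B P : X} {s : G} (hs : s • B = B) (hsz : s ≠ S.r B D.w0)
    (hP : S.Pos D.W B P) : ∃ x, S.Pos D.W B x ∧ S.r P D.w0 • x = s • x := by
  classical
  have hsp : ∀ x, S.Pos D.W B x → S.Pos D.W B (s • x) := fun x hx =>
    D.pos_smul (by rw [hs]; exact D.pos_self B) hx
  have hΨ : ∀ x, ∃ P, S.Pos D.W B x → S.Pos D.W B P ∧ S.r P D.w0 • x = s • x := fun x => by
    by_cases h : S.Pos D.W B x
    · obtain ⟨P, hP⟩ := D.latin_surj h (hsp x h)
      exact ⟨P, fun _ => hP⟩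
    · exact ⟨B, fun h' => absurd h' h⟩
  choose Ψ hΨ using hΨ
  obtain ⟨oty, ho⟩ := S.exists_oty B
  obtain ⟨x, hx, hxP⟩ := surj_on (S.Pos D.W B) (fun a x => S.r B a • x) (by simp)
    (fun a b x => by rw [map_mul, mul_smul]) (fun a x h => D.pos_act_self h a) oty ho Ψ
    (fun x h => (hΨ x h).1) (fun x x' h h' hxx => by
      by_contra hne
      have f1 : (s⁻¹ * S.r (Ψ x) D.w0) • x = x := by rw [mul_smul, (hΨ x h).2, inv_smul_smul]
      have f2 : (s⁻¹ * S.r (Ψ x) D.w0) • x' = x' := by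
        rw [mul_smul, hxx, (hΨ x' h').2, inv_smul_smul]
      have f3 := S.frob _ x x' f1 f2 hne (D.not_opp_of_pos (D.euclid h h'))
      rw [inv_mul_eq_one] at f3
      have f4 : Ψ x = B := by
        by_contra hB
        have := S.frob s (Ψ x) B (by rw [f3]; exact S.fix _ _) hs hB
          (D.not_opp_of_pos (hΨ x h).1)
        rw [f3] at this
        exact D.ne_one D.hw0 (S.inj (Ψ x) (by rw [this, map_one]))
      rw [f4] at f3
      exact hsz f3)
    (fun a x h => by
      have h2 := D.pos_act_self h a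
      apply D.latin (D.euclid (hΨ _ h2).1 (D.pos_act_self (hΨ x h).1 a)) (x := S.r B a • x)
      rw [(hΨ _ h2).2, ← S.conj, mul_smul, mul_smul, inv_smul_smul, (hΨ x h).2, ← mul_smul,
        ← mul_smul, S.comm_of_fix hs]) P hP
  exact ⟨x, hx, by rw [← hxP, (hΨ x hx).2]⟩

theorem pos_eq [Finite ι] [Infinite A] [Group.FG A] {B Q : X} (hQ : S.Pos D.W B Q) : Q = B := by
  classical
  have hF : ∀ g : G, S.Pos D.W B (g • B) → (g = 1 ∨ ∀ x : X, S.Pos D.W B x → g • x ≠ x) →
      ∀ Q : X, S.Pos D.W B Q → ∃ P, S.Pos D.W B P ∧ g = S.r P D.w0 * (S.r Q D.w0)⁻¹ := by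
    rintro g hgB (rfl | hg) Q hQ
    · exact ⟨Q, hQ, by simp⟩
    obtain ⟨P, hP, e⟩ := D.latin_surj hQ (D.pos_smul hgB hQ)
    by_contra hcon
    have hs : (g⁻¹ * S.r P D.w0) • Q = Q := by rw [mul_smul, e, inv_smul_smul]
    have hsz : g⁻¹ * S.r P D.w0 ≠ S.r Q D.w0 := fun h => hcon ⟨P, hP, by rw [← h]; group⟩
    obtain ⟨x, hx, ex⟩ := D.fix_of hs hsz (D.euclid hP hQ)
    apply hg (S.r P D.w0 • x) (D.pos_r hP (D.pos_trans hQ hx) _)
    conv_lhs => rw [ex, mul_smul, smul_inv_smul]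
  have hU : ∀ g g' : G, S.Pos D.W B (g • B) → (g = 1 ∨ ∀ x : X, S.Pos D.W B x → g • x ≠ x) →
      S.Pos D.W B (g' • B) → (g' = 1 ∨ ∀ x : X, S.Pos D.W B x → g' • x ≠ x) →
      ∀ Q : X, S.Pos D.W B Q → g • Q = g' • Q → g = g' := by
    intro g g' hgB hg hgB' hg' Q hQ h
    obtain ⟨P, hP, rfl⟩ := hF g hgB hg Q hQ
    obtain ⟨P', hP', rfl⟩ := hF g' hgB' hg' Q hQ
    rw [mul_smul, mul_smul, ← map_inv, S.fix] at h
    rw [D.latin (D.euclid hP hP') h]
  have hinvB : ∀ g : G, S.Pos D.W B (g • B) → S.Pos D.W B (g⁻¹ • B) := fun g hg => by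
    have := hg.act S g⁻¹
    rw [inv_smul_smul] at this
    exact D.pos_symm this
  have hinv : ∀ g : G, (g = 1 ∨ ∀ x : X, S.Pos D.W B x → g • x ≠ x) →
      (g⁻¹ = 1 ∨ ∀ x : X, S.Pos D.W B x → g⁻¹ • x ≠ x) := by
    rintro g (rfl | hg)
    · left; simp
    · right
      intro x hx h
      apply hg x hx
      rw [inv_smul_eq_iff] at h
      exact h.symm
  let N : Subgroup G :=
    { carrier := {g | S.Pos D.W B (g • B) ∧ (g = 1 ∨ ∀ x : X, S.Pos D.W B x → g • x ≠ x)}
      one_mem' := ⟨by rw [one_smul]; exact D.pos_self B, Or.inl rfl⟩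
      inv_mem' := fun {g} hg => ⟨hinvB g hg.1, hinv g hg.2⟩
      mul_mem' := fun {a b} ha hb => by
        refine ⟨by rw [mul_smul]; exact D.pos_smul ha.1 hb.1, ?_⟩
        by_cases h : ∃ x : X, S.Pos D.W B x ∧ (a * b) • x = x
        · obtain ⟨x, hx0, hx⟩ := h
          left
          have := hU b a⁻¹ hb.1 hb.2 (hinvB a ha.1) (hinv a ha.2) x hx0
            (by rw [eq_inv_smul_iff, ← mul_smul, hx])
          rw [this, mul_inv_cancel]
        · right
          exact fun x hx0 hx => h ⟨x, hx0, hx⟩ }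
  have hconjN : ∀ v, ∀ n ∈ N, S.r B v * n * (S.r B v)⁻¹ ∈ N := by
    intro v n hn
    refine ⟨?_, ?_⟩
    · rw [mul_smul, mul_smul, ← map_inv, S.fix]
      exact D.pos_act_self hn.1 v
    · rcases hn.2 with rfl | h
      · left; simp
      · right
        intro x hx e
        apply h (S.r B v⁻¹ • x) (D.pos_act_self hx _)
        rw [mul_smul, mul_smul, smul_eq_iff_eq_inv_smul] at e
        rw [map_inv]; exact e
  let ψ : A →* Monoid.End N :=
    { toFun := fun v => ((MulAut.conj (S.r B v)).toMonoidHom.comp N.subtype).codRestrict N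
        fun n => hconjN v n n.2
      map_one' := MonoidHom.ext fun n => Subtype.ext (by
        show S.r B 1 * n * (S.r B 1)⁻¹ = n
        simp)
      map_mul' := fun a b => MonoidHom.ext fun n => Subtype.ext (by
        show S.r B (a * b) * n * (S.r B (a * b))⁻¹
          = S.r B a * (S.r B b * n * (S.r B b)⁻¹) * (S.r B a)⁻¹
        rw [map_mul]; group) }
  obtain ⟨oty, ho⟩ := S.exists_oty B
  have hfin : Finite N := by
    refine split_finite_gen (endToAut ψ) (fun n => oty ((n : G) • B)) fun n n' h => ?_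
    obtain ⟨v, hv⟩ := ho _ _ h
    refine ⟨v, Subtype.ext ?_⟩
    have hm := hconjN v n n.2
    refine hU _ _ hm.1 hm.2 n'.2.1 n'.2.2 B (D.pos_self B) ?_
    show (S.r B v * n * (S.r B v)⁻¹) • B = _
    rw [mul_smul, mul_smul, ← map_inv, S.fix, hv]
  by_contra hne
  have hmem : ∀ P, S.Pos D.W B P → S.r P D.w0 * (S.r B D.w0)⁻¹ ∈ N := fun P hP => by
    refine ⟨by rw [mul_smul, ← map_inv, S.fix]; exact D.pos_r hP (D.pos_self B) _, ?_⟩
    by_cases h : ∃ x : X, (S.r P D.w0 * (S.r B D.w0)⁻¹) • x = x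
    · obtain ⟨x, hx⟩ := h
      exact Or.inl (D.claimA (D.tr_of_mem hP D.hw0) hx)
    · exact Or.inr fun x _ hx => h ⟨x, hx⟩
  have hinj : Function.Injective fun v : A =>
      (⟨_, hmem _ (D.pos_act_self hQ v)⟩ : N) := by
    intro v v' h
    have h1 := S.r_eq' (D.ne_one D.hw0) (mul_right_cancel (congrArg Subtype.val h))
    have h2 : S.r B (v'⁻¹ * v) • Q = Q := by
      rw [map_mul, map_inv, mul_smul, h1, inv_smul_smul]
    have h3 := S.frob _ Q B h2 (S.fix B _) hne (D.not_opp_of_pos hQ)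
    have h4 := S.inj B (h3.trans (map_one _).symm)
    rw [inv_mul_eq_one] at h4
    exact h4.symm
  have := Finite.of_injective _ hinj
  exact not_finite A

end Dat

theorem eq_or_opp [Finite ι] [Infinite A] [Group.FG A] (S : Setup2 G X A ι) (B Q : X) :
    Q = B ∨ S.Opp Q B := by
  obtain ⟨D⟩ := S.exists_dat B
  rcases D.dich B Q with h | ⟨ho, h⟩
  · exact Or.inl (D.pos_eq h)
  · obtain ⟨Q', hQ'⟩ := exists_opp ho Q
    have := D.pos_eq (D.pos_of_neg h hQ')
    exact Or.inr (this ▸ hQ'.symm)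

end Setup2

end Pool.Agent.H847Z.Frob
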