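import Mathlib
import Pool.Agent.H847Z.CfcC

set_option autoImplicit false

namespace Pool.Agent.H847Z.Frob

section
variable {G : Type*} [Group G]

def Cl (x y : G) : Prop := ∃ f : G, f * x * f⁻¹ = y

def InfOrd (x : G) : Prop := ∀ n : ℤ, x ^ n = 1 → n = 0

def DC {ι : Type*} (x : G) (dty : G → ι) : Prop :=
  ∀ g g', dty g = dty g' → ∃ u v : ℤ, g' = x ^ u * g * x ^ v

def TI (x : G) : Prop :=
  ∀ y y', Cl x y → Cl x y' → ∀ i j : ℤ, i ≠ 0 → y ^ i = y' ^ j → y' = y ∨ y' = y⁻¹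

theorem Cl.refl (x : G) : Cl x x := ⟨1, by simp⟩

theorem Cl.conj {x y : G} (h : Cl x y) (g : G) : Cl x (g * y * g⁻¹) := by
  obtain ⟨f, rfl⟩ := h
  exact ⟨g * f, by group⟩

theorem Cl.trans {x y z : G} (h : Cl x y) (h' : Cl y z) : Cl x z := by
  obtain ⟨f, rfl⟩ := h'
  exact h.conj f

theorem InfOrd.cl {x y : G} (h : InfOrd x) (hy : Cl x y) : InfOrd y := by
  obtain ⟨f, rfl⟩ := hy
  intro n hn
  rw [conj_zpow, mul_inv_eq_one, mul_eq_left] at hn
  exact h n hn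

theorem InfOrd.inj {x : G} (h : InfOrd x) {m n : ℤ} (e : x ^ m = x ^ n) : m = n := by
  have := h (m - n) (by rw [zpow_sub, e, mul_inv_cancel])
  omega

theorem DC.cl {ι : Type*} {x y : G} {dty : G → ι} (h : DC x dty) (hy : Cl x y) :
    ∃ dty' : G → ι, DC y dty' := by
  obtain ⟨f, rfl⟩ := hy
  refine ⟨fun g => dty (f⁻¹ * g * f), fun g g' e => ?_⟩
  obtain ⟨u, v, huv⟩ := h _ _ e
  refine ⟨u, v, ?_⟩
  rw [conj_zpow, conj_zpow]
  calc g' = f * (f⁻¹ * g' * f) * f⁻¹ := by group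
    _ = _ := by rw [huv]; group

/-- The conjugacy class as a type. -/
def ClT (x : G) : Type _ := {y : G // Cl x y}

instance (x : G) : MulAction G (ClT x) where
  smul g y := ⟨g * y.1 * g⁻¹, y.2.conj g⟩
  one_smul y := Subtype.ext (by show 1 * y.1 * 1⁻¹ = y.1; simp)
  mul_smul a b y := Subtype.ext (by
    show a * b * y.1 * (a * b)⁻¹ = a * (b * y.1 * b⁻¹) * a⁻¹
    group)

theorem ClT.smul_val {x : G} (g : G) (y : ClT x) : (g • y).1 = g * y.1 * g⁻¹ := rfl

theorem frob_case {ι : Type*} [Finite ι] {x : G} {dty : G → ι} (h1 : InfOrd x) (h2 : DC x dty)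
    (h3 : TI x) (h4 : ∀ y y', Cl x y → Cl x y' → y ≠ y' → y ≠ y'⁻¹ → ∀ g : G,
      g * y * g⁻¹ = y → g * y' * g⁻¹ = y' → g = 1) (y : G) (hy : Cl x y) :
    y = x ∨ y = x⁻¹ := by
  choose d hd using fun B : ClT x => h2.cl B.2
  have hopp : ∀ P Q : ClT x, P.1 = Q.1⁻¹ →
      ∀ u : Multiplicative ℤ, zpowersHom G P.1 u = zpowersHom G Q.1 u⁻¹ := fun P Q h u => by
    simp [h]
  let S : Setup2 G (ClT x) (Multiplicative ℤ) ι :=
    { r := fun y => zpowersHom G y.1
      fix := fun Q z => Subtype.ext (by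
        rw [ClT.smul_val, zpowersHom_apply]; group)
      inj := fun Q a b h => by
        simp only [zpowersHom_apply] at h
        exact Multiplicative.toAdd.injective ((h1.cl Q.2).inj h)
      conj := fun g Q z => by
        simp only [zpowersHom_apply, ClT.smul_val, conj_zpow]
      ext := fun P Q h => Subtype.ext (by simpa using h (Multiplicative.ofAdd 1))
      req := fun P Q z w hz h => by
        simp only [zpowersHom_apply] at h
        rcases h3 P.1 Q.1 P.2 Q.2 _ _ (fun h0 => hz (by simpa using h0)) h with e | e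
        · exact Or.inl (Subtype.ext e.symm)
        · exact Or.inr (hopp P Q (by rw [e, inv_inv]))
      frob := fun g P Q hP hQ hne ho =>
        h4 P.1 Q.1 P.2 Q.2 (fun h => hne (Subtype.ext h)) (fun h => ho (hopp P Q h)) g
          (congrArg Subtype.val hP) (congrArg Subtype.val hQ)
      sq := fun z w h => by
        have := congrArg Multiplicative.toAdd h
        simp only [toAdd_mul] at this
        exact Multiplicative.toAdd.injective (by omega)
      trans := fun P Q => by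
        obtain ⟨f, hf⟩ := P.2
        obtain ⟨f', hf'⟩ := Q.2
        exact ⟨f' * f⁻¹, Subtype.ext (by rw [ClT.smul_val, ← hf, ← hf']; group)⟩
      dty := d
      dty_eq := fun B g g' h => by
        obtain ⟨u, v, huv⟩ := hd B g g' h
        exact ⟨Multiplicative.ofAdd u, Multiplicative.ofAdd v, by simpa using huv⟩ }
  rcases S.eq_or_opp ⟨x, Cl.refl x⟩ ⟨y, hy⟩ with h | h
  · exact Or.inl (congrArg Subtype.val h)
  · right
    simpa [S] using h (Multiplicative.ofAdd 1)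

theorem eq_of_pow {x : G} (h1 : InfOrd x) (h3 : TI x) {y y' : G} (hy : Cl x y) (hy' : Cl x y')
    {m : ℤ} (hm : m ≠ 0) (e : y ^ m = y' ^ m) : y' = y := by
  rcases h3 y y' hy hy' m m hm e with h | h
  · exact h
  · rw [h, inv_zpow, ← zpow_neg] at e
    have := (h1.cl hy).inj e
    omega

theorem comm_pow {ι : Type*} [Finite ι] {x : G} {dty : G → ι} (h1 : InfOrd x) (h2 : DC x dty)
    (h3 : TI x) {y y' : G} (hy : Cl x y) (hy' : Cl x y') {m : ℤ} (hm : m ≠ 0)
    (e : y' * y ^ m * y'⁻¹ = y ^ m) : y = y' ∨ y = y'⁻¹ := by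
  have e1 : y' * y * y'⁻¹ = y := eq_of_pow h1 h3 hy (hy.conj y') hm (by rw [conj_zpow, e])
  have hc : Commute y' y := mul_inv_eq_iff_eq_mul.1 e1
  obtain ⟨d, hd⟩ := h2.cl hy
  obtain ⟨n, n', hne, hnn⟩ := Finite.exists_ne_map_eq_of_infinite fun n : ℤ => d (y' ^ n)
  obtain ⟨u, v, huv⟩ := hd _ _ hnn
  refine h3 y' y hy' hy (n' - n) (u + v) (by omega) ?_
  rw [zpow_sub, huv, mul_assoc, mul_assoc, ← mul_assoc (y' ^ n), (hc.zpow_zpow n v).eq, zpow_add]
  group

theorem all_pm {ι : Type*} [Finite ι] {x : G} {dty : G → ι} (h1 : InfOrd x) (h2 : DC x dty)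
    (h3 : TI x) (y0 : G) (hy0 : Cl x y0) : y0 = x ∨ y0 = x⁻¹ := by
  classical
  by_contra hcon
  push Not at hcon
  let K : G → G → Subgroup G := fun y y' =>
    Subgroup.centralizer {y} ⊓ Subgroup.centralizer {y'}
  have hK : ∀ y y' g, g ∈ K y y' ↔ y * g = g * y ∧ y' * g = g * y' := fun y y' g => by
    simp [K, Subgroup.mem_centralizer_iff]
  have hbd : ∀ y y', Cl x y → Cl x y' → y ≠ y' → y ≠ y'⁻¹ →
      Finite (K y y') ∧ Nat.card (K y y') ≤ Nat.card ι := by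
    intro y y' hy hy' n1 n2
    obtain ⟨d, hd⟩ := h2.cl hy
    have hinj : Function.Injective fun k : K y y' => d k := by
      intro k k' e
      obtain ⟨u, v, huv⟩ := hd _ _ e
      obtain ⟨a1, a2⟩ := (hK _ _ _).1 k.2
      obtain ⟨b1, b2⟩ := (hK _ _ _).1 k'.2
      have c1 : Commute y (k : G) := a1
      have e2 : (k' : G) = k * y ^ (u + v) := by
        rw [huv, (c1.zpow_left u).eq, zpow_add, mul_assoc]
      by_cases huv0 : u + v = 0
      · exact Subtype.ext (by rw [e2, huv0]; simp)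
      exfalso
      have e3 : y' * y ^ (u + v) * y'⁻¹ = y ^ (u + v) := by
        rw [e2, ← mul_assoc, a2, mul_assoc, mul_assoc, mul_right_inj] at b2
        rw [b2]; group
      rcases comm_pow h1 h2 h3 hy hy' huv0 e3 with h | h
      · exact n1 h
      · exact n2 h
    exact ⟨Finite.of_injective _ hinj, Nat.card_le_card_of_injective _ hinj⟩
  let T : Set ℕ := {n | ∃ y y', Cl x y ∧ Cl x y' ∧ y ≠ y' ∧ y ≠ y'⁻¹ ∧ Nat.card (K y y') = n}
  have hTne : T.Nonempty := ⟨_, y0, x, hy0, Cl.refl x, hcon.1, hcon.2, rfl⟩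
  have hTb : BddAbove T := ⟨Nat.card ι, by
    rintro _ ⟨y, y', a, b, c, d, rfl⟩
    exact (hbd y y' a b c d).2⟩
  obtain ⟨y, y', hy, hy', n1, n2, hmax⟩ := Nat.sSup_mem hTne hTb
  have hle : ∀ p p', Cl x p → Cl x p' → p ≠ p' → p ≠ p'⁻¹ →
      Nat.card (K p p') ≤ Nat.card (K y y') := fun p p' a b c d => by
    rw [hmax]
    exact le_csSup hTb ⟨p, p', a, b, c, d, rfl⟩
  set L := K y y' with hL
  have hLfin : Finite L := (hbd y y' hy hy' n1 n2).1
  let G1 : Subgroup G := Subgroup.centralizer (L : Set G)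
  have hG1 : ∀ g, g ∈ G1 ↔ ∀ l ∈ L, l * g = g * l := fun g => Subgroup.mem_centralizer_iff
  have hyG : y ∈ G1 := (hG1 y).2 fun l hl => ((hK _ _ _).1 hl).1.symm
  have hyG' : y' ∈ G1 := (hG1 y').2 fun l hl => ((hK _ _ _).1 hl).2.symm
  let Z : Subgroup G1 := L.subgroupOf G1
  have hZn : Z.Normal := ⟨fun z hz g => by
    have := (hG1 g).1 g.2 z hz
    have e : g * z * g⁻¹ = z := Subtype.ext (by
      show (g : G) * z * (g : G)⁻¹ = z
      rw [← this]; group)
    rw [e]; exact hz⟩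
  set n : ℤ := (Nat.card L : ℤ) with hn
  have hn0 : n ≠ 0 := by
    have := Nat.card_pos (α := L)
    omega
  have hpow : ∀ a b : G1, (a : G1 ⧸ Z) = (b : G1 ⧸ Z) → (a : G) ^ n = (b : G) ^ n := by
    intro a b h
    have h0 : a⁻¹ * b ∈ Z := QuotientGroup.eq.1 h
    have h' : ((a⁻¹ * b : G1) : G) ∈ L := h0
    have hc : Commute (a : G) ((a⁻¹ * b : G1) : G) := ((hG1 a).1 a.2 _ h').symm
    have e : (b : G) = a * ((a⁻¹ * b : G1) : G) := by simp
    have e2 : ((a⁻¹ * b : G1) : G) ^ n = 1 := by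
      have : ((⟨_, h'⟩ : L) ^ Nat.card L : L) = 1 := pow_card_eq_one'
      rw [hn, zpow_natCast]
      exact congrArg Subtype.val this
    rw [e, hc.mul_zpow, e2, mul_one]
  let Y : G1 := ⟨y, hyG⟩
  have hcl : ∀ p : G1 ⧸ Z, Cl (Y : G1 ⧸ Z) p → ∃ q : G1, (q : G1 ⧸ Z) = p ∧ Cl x (q : G) := by
    rintro _ ⟨f, rfl⟩
    induction f using QuotientGroup.induction_on with
    | H f => exact ⟨f * Y * f⁻¹, rfl, hy.conj f⟩
  obtain ⟨d, hd⟩ := h2.cl hy
  have key := frob_case (G := G1 ⧸ Z) (x := (Y : G1 ⧸ Z)) (dty := fun q => d (q.out : G1))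
    (fun m hm => by
      have := hpow (Y ^ m) 1 hm
      simp only [Subgroup.coe_zpow, OneMemClass.coe_one, one_zpow, ← zpow_mul] at this
      have := h1.cl hy _ this
      exact (mul_eq_zero.1 this).resolve_right hn0)
    (fun g g' e => by
      obtain ⟨u, v, huv⟩ := hd _ _ e
      refine ⟨u, v, ?_⟩
      rw [← g.out_eq, ← g'.out_eq]
      have : (g'.out : G1) = Y ^ u * g.out * Y ^ v := Subtype.ext huv
      rw [this]; rfl)
    (fun p p' hp hp' i j hi e => by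
      obtain ⟨q, rfl, hq⟩ := hcl p hp
      obtain ⟨q', rfl, hq'⟩ := hcl p' hp'
      have := hpow (q ^ i) (q' ^ j) e
      simp only [Subgroup.coe_zpow, ← zpow_mul] at this
      rcases h3 _ _ hq hq' _ _ (mul_ne_zero hi hn0) this with h | h
      · exact Or.inl (by rw [Subtype.ext h])
      · exact Or.inr (by rw [show q' = q⁻¹ from Subtype.ext h]; rfl))
    (fun p p' hp hp' a b g e e' => by
      obtain ⟨q, rfl, hq⟩ := hcl p hp
      obtain ⟨q', rfl, hq'⟩ := hcl p' hp'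
      induction g using QuotientGroup.induction_on with
      | H g =>
        have f1 := eq_of_pow h1 h3 (hq.conj g) hq hn0 (hpow (g * q * g⁻¹) q e)
        have f2 := eq_of_pow h1 h3 (hq'.conj g) hq' hn0 (hpow (g * q' * g⁻¹) q' e')
        have a' : (q : G) ≠ q' := fun h => a (by rw [Subtype.ext h])
        have b' : (q : G) ≠ (q' : G)⁻¹ := fun h => b (by rw [show q = q'⁻¹ from Subtype.ext h]; rfl)
        have hg : (g : G) ∈ K q q' :=
          (hK _ _ _).2 ⟨eq_mul_inv_iff_mul_eq.1 f1, eq_mul_inv_iff_mul_eq.1 f2⟩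
        have hsub : L ≤ K q q' := fun l hl =>
          (hK _ _ _).2 ⟨((hG1 q).1 q.2 l hl).symm, ((hG1 q').1 q'.2 l hl).symm⟩
        have := (hbd _ _ hq hq' a' b').1
        have heq : L = K q q' := Subgroup.eq_of_le_of_card_ge hsub (hle _ _ hq hq' a' b')
        exact (QuotientGroup.eq_one_iff g).2 (show (g : G) ∈ L from heq ▸ hg))
    (((⟨y', hyG'⟩ : G1) * Y * (⟨y', hyG'⟩ : G1)⁻¹ : G1) : G1 ⧸ Z) ⟨(⟨y', hyG'⟩ : G1), rfl⟩
  have hsq : y * y' ^ (2 : ℤ) * y⁻¹ = y' ^ (2 : ℤ) := by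
    have : y' * y * y'⁻¹ = y ∨ y' * y * y'⁻¹ = y⁻¹ := by
      rcases key with h | h
      · exact h3 y _ hy (hy.conj y') n n hn0 (hpow _ _ h).symm
      · have := hpow _ Y⁻¹ h
        refine h3 y _ hy (hy.conj y') (-n) n (by omega) ?_
        rw [zpow_neg, ← inv_zpow]
        exact this.symm
    rcases this with h | h
    · have hc : Commute y' y := mul_inv_eq_iff_eq_mul.1 h
      rw [← (hc.zpow_left 2).eq]; group
    · have e : y' * y = y⁻¹ * y' := mul_inv_eq_iff_eq_mul.1 h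
      have e' : y * y' = y' * y⁻¹ := by
        calc y * y' = y * (y' * y) * y⁻¹ * y⁻¹ * y := by group
          _ = _ := by rw [e]; group
      rw [zpow_two]
      calc y * (y' * y') * y⁻¹ = (y * y') * (y' * y⁻¹) := by group
        _ = (y' * y⁻¹) * (y * y') := by rw [← e']
        _ = _ := by group
  rcases comm_pow h1 h2 h3 hy' hy two_ne_zero hsq with h | h
  · exact n1 h.symm
  · exact n2 (by rw [h, inv_inv])

theorem abs_eq {ι : Type*} [Finite ι] {c : G} {dty : G → ι} (h1 : InfOrd c) (h2 : DC c dty)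
    {g : G} {i j : ℤ} (hi : i ≠ 0) (e : g * c ^ i * g⁻¹ = c ^ j) : j = i ∨ j = -i := by
  have hn : ∀ n : ℕ, g ^ n * c ^ (i ^ n) * (g ^ n)⁻¹ = c ^ (j ^ n) := by
    intro n
    induction n with
    | zero => simp
    | succ n ih =>
      calc g ^ (n + 1) * c ^ (i ^ (n + 1)) * (g ^ (n + 1))⁻¹
          = g * (g ^ n * c ^ (i ^ n) * (g ^ n)⁻¹) ^ i * g⁻¹ := by
            rw [conj_zpow, ← zpow_mul, pow_succ i, pow_succ' g]; group
        _ = (g * c ^ i * g⁻¹) ^ (j ^ n) := by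
            rw [ih, conj_zpow, ← zpow_mul, ← zpow_mul, mul_comm i]
        _ = _ := by rw [e, ← zpow_mul, pow_succ' j]
  have hj : j ≠ 0 := by
    rintro rfl
    rw [zpow_zero, mul_inv_eq_one, mul_eq_left] at e
    exact hi (h1 i e)
  have main : ∀ n m : ℕ, n < m → dty (g ^ n) = dty (g ^ m) → j = i ∨ j = -i := by
    intro n m hnm hd
    obtain ⟨u, v, huv⟩ := h2 _ _ hd
    have a1 : g ^ m * c ^ (i ^ m * i ^ n) * (g ^ m)⁻¹ = c ^ (j ^ m * i ^ n) := by
      rw [zpow_mul, ← conj_zpow, hn m, ← zpow_mul]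
    have a2 : g ^ m * c ^ (i ^ m * i ^ n) * (g ^ m)⁻¹ = c ^ (j ^ n * i ^ m) := by
      calc _ = c ^ u * (g ^ n * c ^ (i ^ n) * (g ^ n)⁻¹) ^ (i ^ m) * (c ^ u)⁻¹ := by
            rw [conj_zpow, ← zpow_mul, huv, mul_comm (i ^ n)]; group
        _ = _ := by rw [hn n, ← zpow_mul]; group
    have a3 := h1.inj (a1.symm.trans a2)
    obtain ⟨k, rfl⟩ := Nat.exists_eq_add_of_lt hnm
    have a4 : j ^ (k + 1) = i ^ (k + 1) := by
      have hne : j ^ n * i ^ n ≠ 0 := mul_ne_zero (pow_ne_zero _ hj) (pow_ne_zero _ hi)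
      apply mul_left_cancel₀ hne
      linear_combination a3
    rcases (pow_eq_pow_iff_of_ne_zero (Nat.succ_ne_zero k)).1 a4 with h | h
    · exact Or.inl h
    · exact Or.inr h.1
  obtain ⟨n, m, hne, hnm⟩ := Finite.exists_ne_map_eq_of_infinite fun n : ℕ => dty (g ^ n)
  rcases lt_or_gt_of_ne hne with h | h
  · exact main n m h hnm
  · exact main m n h hnm.symm

theorem DC.pow {ι : Type*} {c : G} {dty : G → ι} (h2 : DC c dty) (k : ℤ) :
    ∃ col : G → ι × ZMod k.natAbs × ZMod k.natAbs, DC (c ^ k) col := by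
  classical
  have : Nonempty G := ⟨1⟩
  choose u v huv using fun g => h2 (Function.invFun dty (dty g)) g (Function.invFun_eq ⟨g, rfl⟩)
  refine ⟨fun g => (dty g, (u g : ZMod _), (v g : ZMod _)), fun g g' e => ?_⟩
  simp only [Prod.mk.injEq] at e
  obtain ⟨e1, e2, e3⟩ := e
  rw [ZMod.intCast_eq_intCast_iff_dvd_sub, Int.natCast_natAbs, abs_dvd] at e2 e3
  obtain ⟨a, ha⟩ := e2
  obtain ⟨b, hb⟩ := e3
  refine ⟨a, b, ?_⟩
  rw [← zpow_mul, ← zpow_mul, ← ha, ← hb]
  have a1 := huv g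
  have a2 := huv g'
  rw [← e1] at a2
  generalize Function.invFun dty (dty g) = r at a1 a2
  generalize u g = p at *
  generalize v g = q at *
  generalize u g' = p' at *
  generalize v g' = q' at *
  rw [a1, a2]
  group

theorem index_of_pm {ι : Type*} [Finite ι] {c : G} {k : ℤ} {col : G → ι} (h : DC (c ^ k) col)
    (hpm : ∀ g : G, g * c ^ k * g⁻¹ = c ^ k ∨ g * c ^ k * g⁻¹ = (c ^ k)⁻¹) :
    (Subgroup.zpowers c).index ≠ 0 := by
  have : Finite (G ⧸ Subgroup.zpowers c) := by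
    refine Finite.of_injective (fun q : G ⧸ Subgroup.zpowers c => col q.out) fun q q' e => ?_
    obtain ⟨u, v, huv⟩ := h _ _ e
    rw [← q.out_eq, ← q'.out_eq, QuotientGroup.eq, huv]
    have e2 : q.out⁻¹ * ((c ^ k) ^ u * q.out * (c ^ k) ^ v)
        = (q.out⁻¹ * c ^ k * q.out⁻¹⁻¹) ^ u * (c ^ k) ^ v := by
      rw [conj_zpow]; group
    have hm : c ^ k ∈ Subgroup.zpowers c := Subgroup.zpow_mem_zpowers c k
    rw [e2]
    refine Subgroup.mul_mem _ (Subgroup.zpow_mem _ ?_ _) (Subgroup.zpow_mem _ hm _)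
    rcases hpm q.out⁻¹ with h1 | h1 <;> rw [h1]
    · exact hm
    · exact Subgroup.inv_mem _ hm
  exact Subgroup.index_ne_zero_of_finite

/-- A cyclic subgroup with finitely many double cosets has finite index. -/
theorem index_ne_zero_of_dc {ι : Type*} [Finite ι] {c : G} {dty : G → ι} (h2 : DC c dty) :
    (Subgroup.zpowers c).index ≠ 0 := by
  classical
  by_cases h1 : InfOrd c
  swap
  · simp only [InfOrd, not_forall] at h1
    obtain ⟨k, hk, hk0⟩ := h1
    obtain ⟨col, hcol⟩ := h2.pow k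
    have : NeZero k.natAbs := ⟨by omega⟩
    exact index_of_pm hcol fun g => Or.inl (by rw [hk]; simp)
  have : Nonempty G := ⟨1⟩
  have := Fintype.ofFinite ι
  have hi : ∀ t : ι, ∃ i : ℤ, i ≠ 0 ∧ ∀ g, dty g = t →
      (∃ i j : ℤ, i ≠ 0 ∧ g * c ^ i * g⁻¹ = c ^ j) → ∃ j : ℤ, g * c ^ i * g⁻¹ = c ^ j := by
    intro t
    by_cases h : ∃ g, dty g = t ∧ ∃ i j : ℤ, i ≠ 0 ∧ g * c ^ i * g⁻¹ = c ^ j
    · obtain ⟨g0, hg0, i, j, hi, e⟩ := h
      refine ⟨i, hi, fun g hg _ => ⟨j, ?_⟩⟩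
      obtain ⟨u, v, rfl⟩ := h2 _ _ (hg0.trans hg.symm)
      calc _ = c ^ u * (g0 * c ^ i * g0⁻¹) * (c ^ u)⁻¹ := by group
        _ = _ := by rw [e]; group
    · exact ⟨1, one_ne_zero, fun g hg h' => absurd ⟨g, hg, h'⟩ h⟩
  choose i hi0 hi using hi
  set k := ∏ t, i t with hk
  have hk0 : k ≠ 0 := Finset.prod_ne_zero_iff.2 fun t _ => hi0 t
  have hM : ∀ g : G, (∃ i j : ℤ, i ≠ 0 ∧ g * c ^ i * g⁻¹ = c ^ j) →
      g * c ^ k * g⁻¹ = c ^ k ∨ g * c ^ k * g⁻¹ = (c ^ k)⁻¹ := by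
    intro g hg
    obtain ⟨j, e⟩ := hi _ g rfl hg
    obtain ⟨m, hm⟩ : i (dty g) ∣ k := Finset.dvd_prod_of_mem _ (Finset.mem_univ _)
    have e2 : g * c ^ k * g⁻¹ = c ^ (j * m) := by
      rw [hm, zpow_mul, ← conj_zpow, e, ← zpow_mul]
    rcases abs_eq h1 h2 (hi0 _) e with h | h
    · left; rw [e2, h, hm]
    · right; rw [e2, h, hm, neg_mul, zpow_neg]
  obtain ⟨col, hcol⟩ := h2.pow k
  have : NeZero k.natAbs := ⟨by omega⟩
  refine index_of_pm hcol fun g => all_pm (fun n hn => ?_) hcol ?_ _ ⟨g, rfl⟩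
  · rw [← zpow_mul] at hn
    exact (mul_eq_zero.1 (h1 _ hn)).resolve_left hk0
  · rintro _ _ ⟨f, rfl⟩ ⟨f', rfl⟩ a b ha e
    rw [conj_zpow, conj_zpow, ← zpow_mul, ← zpow_mul] at e
    have := hM (f'⁻¹ * f) ⟨k * a, k * b, mul_ne_zero hk0 ha, by
      calc _ = f'⁻¹ * (f * c ^ (k * a) * f⁻¹) * f' := by group
        _ = _ := by rw [e]; group⟩
    have e3 : f * c ^ k * f⁻¹ = f' * (f'⁻¹ * f * c ^ k * (f'⁻¹ * f)⁻¹) * f'⁻¹ := by group
    rcases this with h | h
    · left; rw [e3, h]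
    · right; rw [e3, h]; group

end

end Pool.Agent.H847Z.Frob
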