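import Mathlib
import Pool.Agent.H847Z.FrobB

set_option autoImplicit false

namespace Pool.Agent.H847Z.Frob

open Filter

namespace Setup

variable {G X A ι : Type*} [Group G] [MulAction G X] [CommGroup A] (S : Setup G X A ι)

theorem sim_base {B : X} {g g' : G} (h : Sim B g B g') :
    ∃ v, S.r B v * g * (S.r B v)⁻¹ = g' := by
  obtain ⟨f, h1, h2⟩ := h
  obtain ⟨v, rfl⟩ := S.sur B f h1
  exact ⟨v, h2⟩

/-- The good set consists of latin elements. -/
theorem latin (e : Ultrafilter A) (hc : (e : Filter A) ≤ cofinite)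
    (he : ∀ p : A → Prop, (∀ᶠ m in (e : Filter A), p m) ↔
      ∀ᶠ a in (e : Filter A), ∀ᶠ b in (e : Filter A), p (a * b))
    (W : Set A) (hW : W ∈ e) (hsim : ∀ w ∈ W, ∀ w' ∈ W, ∀ B Q : X,
      Sim B (S.r Q w * (S.r B w)⁻¹) B (S.r Q w' * (S.r B w')⁻¹))
    {w0 : A} (hw0 : w0 ∈ W) (h1 : w0 ≠ 1) (B : X) :
    Function.Injective fun P => S.r P w0 • B := by
  intro P Q hPQ
  by_contra hne
  simp only at hPQ
  let σ : A → G := fun w => S.r P w * (S.r Q w)⁻¹
  have hσ : ∀ w ∈ W, ∃ v, S.r Q v * σ w0 * (S.r Q v)⁻¹ = σ w :=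
    fun w hw => S.sim_base (hsim w0 hw0 w hw Q P)
  have hfix : σ w0 • (S.r Q w0 • B) = S.r Q w0 • B := by
    simp only [σ, mul_smul, inv_smul_smul, hPQ]
  obtain ⟨m, hm⟩ := S.sur _ _ hfix
  have hm1 : m ≠ 1 := by
    rintro rfl
    rw [map_one] at hm
    have : S.r P w0 = S.r Q w0 := by
      have h2 : σ w0 * S.r Q w0 = S.r Q w0 := by rw [← hm, one_mul]
      simpa [σ] using h2
    exact hne (S.r_eq h1 this).1
  have hO : ∀ g : G, (∃ v, S.r Q v * σ w0 * (S.r Q v)⁻¹ = g) → ∃ Y, g = S.r Y m := by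
    rintro g ⟨v, rfl⟩
    exact ⟨_, by rw [← hm, S.conj]⟩
  have hW' : ∀ᶠ w in (e : Filter A), w ∈ W := hW
  obtain ⟨w, hw, hw2⟩ := (hW'.and ((he _).1 hW')).exists
  have hinf := hW'.and hw2
  obtain ⟨w', hw', hww'⟩ := hinf.exists
  have hne' : ∀ᶠ x in (e : Filter A), x ≠ w' :=
    hc (Set.finite_singleton w').compl_mem_cofinite
  obtain ⟨w'', ⟨hw'', hww''⟩, hn⟩ := (hinf.and hne').exists
  have hconj : ∀ u ∈ W, ∃ v, S.r Q v * σ w0 * (S.r Q v)⁻¹ = S.r Q w * σ u * (S.r Q w)⁻¹ := by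
    intro u hu
    obtain ⟨v, hv⟩ := hσ u hu
    exact ⟨w * v, by rw [← hv, map_mul]; group⟩
  have hprod : ∀ u, σ (w * u) = σ w * (S.r Q w * σ u * (S.r Q w)⁻¹) := by
    intro u
    simp only [σ, map_mul]; group
  have hcomm := comm_of_orbit (S.r Q) (σ w0) (σ w) _ _ (hσ w hw) (hconj w' hw') (hconj w'' hw'')
    (by rw [← hprod]; exact hσ _ hww') (by rw [← hprod]; exact hσ _ hww'')
  obtain ⟨Y, hY⟩ := hO _ (hconj w' hw')
  obtain ⟨Y', hY'⟩ := hO _ (hconj w'' hw'')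
  rw [hY, hY'] at hcomm
  have hYY : S.r Y m • Y' = Y' := by
    have h3 : S.r Y m * S.r Y' m * (S.r Y m)⁻¹ = S.r Y' m := by rw [hcomm]; group
    rw [S.conj] at h3
    exact (S.r_eq hm1 h3).1
  have hY2 : Y' = Y := S.eq_of_fix hm1 hYY
  rw [hY2, ← hY] at hY'
  have h4 : σ w'' = σ w' := mul_left_cancel (mul_right_cancel hY')
  have h5 : S.r P (w'⁻¹ * w'') = S.r Q (w'⁻¹ * w'') := by
    have : S.r P w'' = S.r P w' * (S.r Q w')⁻¹ * S.r Q w'' := by
      have h6 : S.r P w'' * (S.r Q w'')⁻¹ = S.r P w' * (S.r Q w')⁻¹ := h4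
      rw [← h6]; group
    rw [map_mul, map_mul, map_inv, map_inv, this]; group
  have h7 : w'⁻¹ * w'' ≠ 1 := fun h => hn (by rw [inv_mul_eq_one] at h; exact h.symm)
  exact hne (S.r_eq h7 h5).1

theorem latin_surj [Finite ι] {w : A} (B : X)
    (h : Function.Injective fun P => S.r P w • B) :
    Function.Surjective fun P => S.r P w • B := by
  refine surj_of_inj (fun a x => S.r B a • x) (S.ty B) (fun x y => S.ty_base) _ h ?_
  intro a x
  rw [← S.conj, mul_smul, mul_smul, ← map_inv, S.fix]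

theorem fix_of [Finite ι] {z w : A} (hz : ∀ B : X, Function.Injective fun P => S.r P z • B)
    (hw : w ≠ 1) (hwz : w ≠ z) (Q P : X) : ∃ B : X, S.r P z • B = S.r Q w • B := by
  have hs := fun B => S.latin_surj B (hz B)
  choose Ψ hΨ using fun B => hs B (S.r Q w • B)
  simp only at hΨ
  have hinj : Function.Injective Ψ := by
    intro B B' hBB
    by_cases hQ : Ψ B = Q
    · have k : ∀ C, Ψ C = Q → C = Q := fun C hC => by
        by_contra hne
        have := hΨ C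
        rw [hC] at this
        exact hwz (S.free hne this).symm
      rw [k B hQ, k B' (hBB ▸ hQ)]
    · by_contra hne
      have f1 : ((S.r Q w)⁻¹ * S.r (Ψ B) z) • B = B := by rw [mul_smul, hΨ, inv_smul_smul]
      have f2 : ((S.r Q w)⁻¹ * S.r (Ψ B) z) • B' = B' := by
        rw [mul_smul, hBB, hΨ, inv_smul_smul]
      have := S.frob _ _ _ hne f1 f2
      rw [inv_mul_eq_one] at this
      exact hQ (S.r_eq hw this).1.symm
  have heq : ∀ a x, Ψ (S.r Q a • x) = S.r Q a • Ψ x := by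
    intro a x
    apply hz (S.r Q a • x)
    simp only
    rw [hΨ, ← S.conj, mul_smul, mul_smul, inv_smul_smul, hΨ, ← mul_smul, ← mul_smul, S.r_comm]
  obtain ⟨B, hB⟩ := surj_of_inj (fun a x => S.r Q a • x) (S.ty Q) (fun x y => S.ty_base) Ψ
    hinj heq P
  exact ⟨B, by rw [← hB, hΨ]⟩

include S in
/-- The fixed point free elements together with the identity form a regular normal subgroup. -/
theorem exists_regular [Finite ι] [Infinite A] :
    ∃ N : Subgroup G, N.Normal ∧ (∀ n ∈ N, ∀ x : X, n • x = x → n = 1) ∧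
      ∀ x y : X, ∃ n ∈ N, n • x = y := by
  obtain ⟨e, hc, he⟩ := exists_idem (cofinite : Filter A) (fun s hs x => by
    have := (mul_right_injective x).tendsto_cofinite hs
    exact this)
  obtain ⟨W, hW, hsim⟩ := S.exists_good e hc he
  have hW' : ∀ᶠ w in (e : Filter A), w ∈ W := hW
  have hne : ∀ a : A, ∀ᶠ x in (e : Filter A), x ≠ a := fun a =>
    hc (Set.finite_singleton a).compl_mem_cofinite
  obtain ⟨z0, hz0, hz01⟩ := (hW'.and (hne 1)).exists
  have hlat : ∀ w ∈ W, w ≠ 1 → ∀ B : X, Function.Injective fun P => S.r P w • B :=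
    fun w hw h1 B => S.latin e hc he W hW hsim hw h1 B
  have hT : ∀ Q P : X, S.r P z0 * (S.r Q z0)⁻¹ = 1 ∨ ∀ x : X, (S.r P z0 * (S.r Q z0)⁻¹) • x ≠ x := by
    intro Q P
    by_cases h : ∃ x : X, (S.r P z0 * (S.r Q z0)⁻¹) • x = x
    · obtain ⟨x, hx⟩ := h
      left
      have : P = Q := by
        apply hlat z0 hz0 hz01 ((S.r Q z0)⁻¹ • x)
        simp only
        rw [← mul_smul, hx, smul_inv_smul]
      rw [this, mul_inv_cancel]
    · right
      exact fun x hx => h ⟨x, hx⟩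
  have hF : ∀ g : G, (g = 1 ∨ ∀ x : X, g • x ≠ x) → ∀ Q : X,
      ∃ P, g = S.r P z0 * (S.r Q z0)⁻¹ := by
    rintro g (rfl | hg) Q
    · exact ⟨Q, by simp⟩
    obtain ⟨P, hP⟩ := S.latin_surj Q (hlat z0 hz0 hz01 Q) (g • Q)
    simp only at hP
    have h1 : ((S.r P z0 * (S.r Q z0)⁻¹)⁻¹ * g) • Q = Q := by
      rw [mul_smul, ← hP, mul_inv_rev, inv_inv, mul_smul, inv_smul_smul, S.fix]
    obtain ⟨s, hs⟩ := S.sur Q _ h1
    by_cases hs1 : s = 1
    · refine ⟨P, ?_⟩
      rw [hs1, map_one, eq_comm, inv_mul_eq_one] at hs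
      exact hs.symm
    exfalso
    obtain ⟨z, ⟨hz, hz1⟩, hzs⟩ := ((hW'.and (hne 1)).and (hne s)).exists
    obtain ⟨v, hv⟩ := S.sim_base (hsim z hz z0 hz0 Q P)
    have hw1 : z * s⁻¹ ≠ 1 := fun h => hzs (by rwa [mul_inv_eq_one] at h)
    have hwz : z * s⁻¹ ≠ z := fun h => hs1 (by simpa using h)
    obtain ⟨B, hB⟩ := S.fix_of (hlat z hz hz1) hw1 hwz Q (S.r Q v • P)
    apply hg (S.r Q (z * s⁻¹) • B)
    have hg' : g = S.r (S.r Q v • P) z * (S.r Q (z * s⁻¹))⁻¹ := by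
      have e1 : g = S.r P z0 * (S.r Q z0)⁻¹ * S.r Q s := by rw [hs]; group
      have hc1 : (S.r Q z)⁻¹ * ((S.r Q v)⁻¹ * S.r Q s) = (S.r Q v)⁻¹ * (S.r Q s * (S.r Q z)⁻¹) := by
        simp only [← map_inv, ← map_mul]
        congr 1
        simp only [mul_comm, mul_left_comm, mul_assoc]
      rw [e1, ← hv, ← S.conj, map_mul, map_inv, mul_inv_rev, inv_inv]
      simp only [mul_assoc]
      rw [hc1]
    rw [hg', mul_smul, inv_smul_smul, hB]
  have hU : ∀ g g' : G, (g = 1 ∨ ∀ x : X, g • x ≠ x) → (g' = 1 ∨ ∀ x : X, g' • x ≠ x) →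
      ∀ Q : X, g • Q = g' • Q → g = g' := by
    intro g g' hg hg' Q h
    obtain ⟨P, rfl⟩ := hF g hg Q
    obtain ⟨P', rfl⟩ := hF g' hg' Q
    have : P = P' := by
      apply hlat z0 hz0 hz01 Q
      simp only
      rwa [mul_smul, mul_smul, ← map_inv, S.fix] at h
    rw [this]
  have hinv : ∀ g : G, (g = 1 ∨ ∀ x : X, g • x ≠ x) → (g⁻¹ = 1 ∨ ∀ x : X, g⁻¹ • x ≠ x) := by
    rintro g (rfl | hg)
    · left; simp
    · right
      intro x hx
      apply hg x
      rw [inv_smul_eq_iff] at hx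
      exact hx.symm
  let N : Subgroup G :=
    { carrier := {g | g = 1 ∨ ∀ x : X, g • x ≠ x}
      one_mem' := Or.inl rfl
      inv_mem' := fun {g} hg => hinv g hg
      mul_mem' := fun {a b} ha hb => by
        by_cases h : ∃ x : X, (a * b) • x = x
        · obtain ⟨x, hx⟩ := h
          left
          have := hU b a⁻¹ hb (hinv a ha) x (by rw [eq_inv_smul_iff, ← mul_smul, hx])
          rw [this, mul_inv_cancel]
        · right
          exact fun x hx => h ⟨x, hx⟩ }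
  refine ⟨N, ⟨fun n hn g => ?_⟩, fun n hn x hx => ?_, fun x y => ?_⟩
  · rcases hn with rfl | hn
    · left; simp
    · right
      intro x hx
      apply hn (g⁻¹ • x)
      rw [mul_smul, mul_smul, smul_eq_iff_eq_inv_smul] at hx
      exact hx
  · rcases hn with rfl | hn
    · rfl
    · exact absurd hx (hn x)
  · obtain ⟨P, hP⟩ := S.latin_surj x (hlat z0 hz0 hz01 x) y
    refine ⟨S.r P z0 * (S.r x z0)⁻¹, hT x P, ?_⟩
    simp only at hP
    rw [mul_smul, ← map_inv, S.fix, hP]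

end Setup

end Pool.Agent.H847Z.Frob
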