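import Mathlib
import Pool.Agent.H847Z.FrobC
import Pool.Agent.H847Z.FrobD

set_option autoImplicit false

namespace Pool.Agent.H847Z.Frob

open MulAction

theorem Setup.false_of {G X A ι : Type*} [Group G] [MulAction G X] [CommGroup A]
    (S : Setup G X A ι) [Finite ι] [Infinite A] [Group.FG A] [Infinite X] [IsPreprimitive G X] :
    False := by
  obtain ⟨N, hN, hfree, htr⟩ := S.exists_regular
  obtain ⟨B⟩ : Nonempty X := inferInstance
  have huniq : ∀ n ∈ N, ∀ n' ∈ N, n • B = n' • B → n = n' := fun n hn n' hn' h => by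
    have := hfree (n'⁻¹ * n) (N.mul_mem (N.inv_mem hn') hn) B (by rw [mul_smul, h, inv_smul_smul])
    rw [inv_mul_eq_one] at this
    exact this.symm
  let φ : A →* MulAut N := MulAut.conjNormal.comp (S.r B)
  have hφ : ∀ v (n : N), (φ v n : G) = S.r B v * n * (S.r B v)⁻¹ := fun v n => by simp [φ]
  have hfin : Finite N := by
    refine split_finite φ (fun n => S.ty B ((n : G) • B)) (fun n n' h => ?_) (fun K hK hinv => ?_)
    · obtain ⟨v, hv⟩ := S.ty_base.1 h
      refine ⟨v, Subtype.ext (huniq _ (φ v n).2 _ n'.2 ?_)⟩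
      rw [hφ, mul_smul, mul_smul, ← map_inv, S.fix, hv]
    · have hnorm : (K.map N.subtype).Normal := by
        refine ⟨?_⟩
        rintro _ ⟨k, hk, rfl⟩ g
        obtain ⟨n, hn, hnB⟩ := htr B (g • B)
        obtain ⟨v, hv⟩ := S.sur B (n⁻¹ * g) (by rw [mul_smul, ← hnB, inv_smul_smul])
        have hg : g = n * S.r B v := by rw [hv]; group
        refine ⟨⟨n, hn⟩ * φ v k * (⟨n, hn⟩ : N)⁻¹, hK.conj_mem _ (hinv v k hk) _, ?_⟩
        simp only [Subgroup.coe_subtype, Subgroup.coe_mul, hφ, hg, InvMemClass.coe_inv]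
        group
      by_cases hb : K = ⊥
      · exact Or.inl hb
      right
      have hne : fixedPoints (K.map N.subtype) X ≠ Set.univ := by
        intro h
        apply hb
        rw [Subgroup.eq_bot_iff_forall]
        intro k hk
        have h1 : B ∈ fixedPoints (K.map N.subtype) X := h ▸ Set.mem_univ B
        have h2 := h1 ⟨k, ⟨k, hk, rfl⟩⟩
        exact Subtype.ext (hfree k k.2 B h2)
      have ht := IsQuasiPreprimitive.isPretransitive_of_normal hne
      rw [eq_top_iff]
      intro n _
      obtain ⟨⟨_, ⟨k, hk, rfl⟩⟩, hk2⟩ := ht.exists_smul_eq B ((n : G) • B)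
      have : k = n := Subtype.ext (huniq _ k.2 _ n.2 hk2)
      exact this ▸ hk
  have : Finite X := by
    refine Finite.of_surjective (fun n : N => (n : G) • B) fun y => ?_
    obtain ⟨n, hn, h⟩ := htr B y
    exact ⟨⟨n, hn⟩, h⟩
  exact not_finite X

/-- No infinite primitive Frobenius action has a finitely generated abelian point stabiliser
with finitely many orbits. -/
theorem no_frobenius {G X : Type*} [Group G] [MulAction G X] [Infinite X] [IsPreprimitive G X]
    (hfrob : ∀ (g : G) (x y : X), x ≠ y → g • x = x → g • y = y → g = 1) (B : X)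
    (hab : ∀ a b : stabilizer G B, a * b = b * a) (hfg : Group.FG (stabilizer G B))
    (hfin : Finite (orbitRel.Quotient (stabilizer G B) X)) : False := by
  classical
  let _ : CommGroup (stabilizer G B) := { (inferInstance : Group _) with mul_comm := hab }
  choose t ht using fun Q : X => exists_smul_eq G B Q
  have hab' : ∀ (a : G), a • B = B → ∀ z : stabilizer G B, a * z * a⁻¹ = z := fun a ha z => by
    have := congrArg Subtype.val (hab ⟨a, ha⟩ z)
    simp only [Subgroup.coe_mul] at this
    rw [this]; group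
  let S : Setup G X (stabilizer G B) (orbitRel.Quotient G (X × X)) :=
    { r := fun Q => (MulAut.conj (t Q)).toMonoidHom.comp (stabilizer G B).subtype
      fix := fun Q z => by
        show (t Q * z * (t Q)⁻¹) • Q = Q
        have hz : (z : G) • B = B := z.2
        rw [mul_smul, mul_smul, (inv_smul_eq_iff.2 (ht Q).symm : (t Q)⁻¹ • Q = B), hz, ht]
      sur := fun Q g hg => by
        refine ⟨⟨(t Q)⁻¹ * g * t Q, ?_⟩, ?_⟩
        · rw [mem_stabilizer_iff, mul_smul, mul_smul, ht, hg, inv_smul_eq_iff, ht]
        · show t Q * ((t Q)⁻¹ * g * t Q) * (t Q)⁻¹ = g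
          group
      inj := fun Q => (MulAut.conj (t Q)).injective.comp Subtype.val_injective
      conj := fun g Q z => by
        show g * (t Q * z * (t Q)⁻¹) * g⁻¹ = t (g • Q) * z * (t (g • Q))⁻¹
        have h1 := hab' ((t (g • Q))⁻¹ * g * t Q)
          (by rw [mul_smul, mul_smul, ht, inv_smul_eq_iff, ht]) z
        conv_rhs => rw [← h1]
        group
      frob := hfrob
      ty := fun P Q => Quotient.mk (orbitRel G (X × X)) (P, Q)
      ty_eq := fun P Q P' Q' => by
        rw [eq_comm, Quotient.eq, orbitRel_apply, mem_orbit_iff]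
        simp }
  have hι : Finite (orbitRel.Quotient G (X × X)) := by
    refine Finite.of_surjective
      (fun q : orbitRel.Quotient (stabilizer G B) X => S.ty B q.out) fun p => ?_
    induction p using Quotient.inductionOn with
    | _ p =>
      obtain ⟨P, Q⟩ := p
      refine ⟨Quotient.mk _ ((t P)⁻¹ • Q), ?_⟩
      have h1 : (Quotient.mk (orbitRel (stabilizer G B) X) ((t P)⁻¹ • Q)).out ∈
          orbit (stabilizer G B) ((t P)⁻¹ • Q) := orbitRel_apply.1 (Quotient.mk_out _)
      obtain ⟨z, hz⟩ := h1
      show S.ty B _ = S.ty P Q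
      rw [S.ty_eq]
      refine ⟨t P * (z : G)⁻¹, ?_, ?_⟩
      · have hz : (z : G) • B = B := z.2
        rw [mul_smul, (inv_smul_eq_iff.2 hz.symm : (z : G)⁻¹ • B = B), ht]
      · rw [← hz]
        show (t P * (z : G)⁻¹) • (z : G) • (t P)⁻¹ • Q = Q
        rw [mul_smul, inv_smul_smul, smul_inv_smul]
  have hA : Infinite (stabilizer G B) := by
    by_contra h
    rw [not_infinite_iff_finite] at h
    have : Finite X := by
      refine Finite.of_surjective
        (fun p : stabilizer G B × orbitRel.Quotient (stabilizer G B) X => p.1 • p.2.out) fun y => ?_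
      have h1 : y ∈ orbit (stabilizer G B) (Quotient.mk (orbitRel (stabilizer G B) X) y).out :=
        orbitRel_apply.1 ((orbitRel (stabilizer G B) X).symm (Quotient.mk_out y))
      obtain ⟨z, hz⟩ := h1
      exact ⟨(z, Quotient.mk _ y), hz⟩
    exact not_finite X
  exact S.false_of

end Pool.Agent.H847Z.Frob
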